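import Pool.Agent.W389.CT.Struct
import Pool.Agent.Helper548.HB.P_z2_norm

set_option autoImplicit false

/-! The Cannon-Thurston map of the diagonal of `ℤ wr ℤ/3`. -/

namespace Pool.Agent.W389.CT

open Pool.Agent.Helper548.HB Gr

/-- the subgroup -/
abbrev HH : Subgroup Gr := Subgroup.zpowers z

/-- the generator -/
def zz : HH := ⟨z, Subgroup.mem_zpowers z⟩

/-- the generating set -/
def TT : Finset HH := {zz}

theorem zz_coe (n : ℤ) : ((zz ^ n : HH) : Gr) = z ^ n := by
  rw [Subgroup.coe_zpow]; rfl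

theorem eq_zpow (h : HH) : ∃ n : ℤ, h = zz ^ n := by
  obtain ⟨g, n, hn⟩ := h
  exact ⟨n, Subtype.ext (by rw [zz_coe]; exact hn.symm)⟩

theorem TT_top : Subgroup.closure (TT : Set HH) = ⊤ := by
  rw [eq_top_iff]
  intro h _
  obtain ⟨n, rfl⟩ := eq_zpow h
  exact zpow_mem (Subgroup.subset_closure (by simp [TT])) n

/-- the exponent -/
def ex (h : HH) : ℤ := (h : Gr).v 0

theorem ex_zpow (n : ℤ) : ex (zz ^ n) = n := by
  unfold ex
  rw [zz_coe, z_zpow]
  simp [tr, one3]

theorem eq_zz_ex (h : HH) : h = zz ^ ex h := by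
  obtain ⟨n, rfl⟩ := eq_zpow h
  rw [ex_zpow]

theorem ex_mul (g h : HH) : ex (g * h) = ex g + ex h := by
  obtain ⟨m, rfl⟩ := eq_zpow g
  obtain ⟨n, rfl⟩ := eq_zpow h
  rw [← zpow_add, ex_zpow, ex_zpow, ex_zpow]

theorem ex_inv (g : HH) : ex g⁻¹ = -ex g := by
  obtain ⟨m, rfl⟩ := eq_zpow g
  rw [← zpow_neg, ex_zpow, ex_zpow]

theorem ex_one : ex 1 = 0 := by
  have := ex_zpow 0
  rwa [zpow_zero] at this

theorem ex_inj {g h : HH} (e : ex g = ex h) : g = h := by
  rw [eq_zz_ex g, eq_zz_ex h, e]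

theorem wlen_TT (h : HH) : (wlen TT h : ℤ) = |ex h| := by
  apply le_antisymm
  · conv_lhs => rw [eq_zz_ex h]
    exact wlen_zpow_le TT_top (by simp [TT]) _
  · have hlist : ∀ l : List HH, (∀ x ∈ l, x ∈ TT ∨ x⁻¹ ∈ TT) → |ex l.prod| ≤ l.length := by
      intro l
      induction l with
      | nil => intro _; simp [ex_one]
      | cons a l ih =>
        intro hl
        rw [List.prod_cons, List.length_cons, ex_mul]
        have h2 := ih (fun x hx => hl x (List.mem_cons_of_mem _ hx))
        have h3 : |ex a| ≤ 1 := by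
          have hz : ex zz = 1 := by
            have := ex_zpow 1
            rwa [zpow_one] at this
          rcases hl a List.mem_cons_self with h | h
          · rw [show a = zz by simpa [TT] using h, hz]; simp
          · have h4 : a⁻¹ = zz := by simpa [TT] using h
            have h5 : ex a = -1 := by
              have := ex_inv a
              rw [h4, hz] at this
              linarith
            rw [h5]; simp
        have h4 := abs_add_le (ex a) (ex l.prod)
        push_cast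
        linarith
    obtain ⟨l, hl, hlS, hlg⟩ := wl_exists TT TT_top h
    have h1 := hlist l hlS
    rwa [hlg, hl] at h1

theorem wd_TT (g h : HH) : wd TT g h = |(ex g : ℝ) - ex h| := by
  unfold wd
  have h1 := wlen_TT (g⁻¹ * h)
  rw [ex_mul, ex_inv] at h1
  have h2 : (wlen TT (g⁻¹ * h) : ℝ) = |((-ex g + ex h : ℤ) : ℝ)| := by exact_mod_cast h1
  rw [h2, abs_sub_comm]
  push_cast
  congr 1
  ring

theorem hyp_TT : HypCayley TT := by
  refine ⟨0, fun x y z w => ?_⟩
  simp only [wd_TT]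
  generalize (ex x : ℝ) = a
  generalize (ex y : ℝ) = b
  generalize (ex z : ℝ) = c
  generalize (ex w : ℝ) = d
  rw [add_zero]
  rcases le_total a b with h1 | h1 <;> rcases le_total c d with h2 | h2 <;>
    rcases le_total a c with h3 | h3 <;> rcases le_total b d with h4 | h4 <;>
    rcases le_total a d with h5 | h5 <;> rcases le_total b c with h6 | h6 <;>
    simp only [abs_of_nonneg, abs_of_nonpos, sub_nonneg, sub_nonpos, h1, h2, h3, h4, h5, h6] <;>
    first
    | (apply le_max_of_le_left; linarith)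
    | (apply le_max_of_le_right; linarith)

/-- the group as a metric space -/
abbrev Sp : Type := WordSp TT TT_top

/-- exponent -/
def exS (x : Sp) : ℝ := (ex (x : HH) : ℝ)

theorem dist_Sp (x y : Sp) : dist x y = |exS x - exS y| := wd_TT x y

/-- base point -/
def o1 : Sp := (1 : HH)

theorem ex_o1 : exS o1 = 0 := by
  show ((ex (1 : HH) : ℤ) : ℝ) = 0
  rw [ex_one]; simp

theorem gp (x y : Sp) : gprod o1 x y = (|exS x| + |exS y| - |exS x - exS y|) / 2 := by
  unfold gprod
  rw [dist_Sp, dist_Sp, dist_Sp, ex_o1, sub_zero, sub_zero]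

/-- positive Gromov product: same sign -/
theorem gp_pos {x y : Sp} {R : ℝ} (hR : 0 < R) (h : R ≤ gprod o1 x y) :
    (0 < exS x ↔ 0 < exS y) ∧ R ≤ |exS x| := by
  rw [gp] at h
  generalize exS x = a at h ⊢
  generalize exS y = b at h ⊢
  rcases abs_cases a with ⟨h1, h1'⟩ | ⟨h1, h1'⟩ <;> rcases abs_cases b with ⟨h2, h2'⟩ | ⟨h2, h2'⟩ <;>
    rcases abs_cases (a - b) with ⟨h3, h3'⟩ | ⟨h3, h3'⟩ <;> rw [h1, h2, h3] at h <;>
    refine ⟨⟨fun k => ?_, fun k => ?_⟩, ?_⟩ <;> (try rw [h1]) <;> linarith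

/-- the sequence is eventually positive -/
def EvPos (u : GromovSeq Sp) : Prop := ∃ N : ℕ, ∀ n ≥ N, 0 < exS (u.seq n)

theorem evPos_equiv {u v : GromovSeq Sp} (h : u.Equiv v) : EvPos u ↔ EvPos v := by
  obtain ⟨N, hN⟩ := h o1 1
  constructor
  · rintro ⟨M, hM⟩
    exact ⟨max M N, fun n hn => (gp_pos one_pos (hN n ((le_max_right _ _).trans hn))).1.1
      (hM n ((le_max_left _ _).trans hn))⟩
  · rintro ⟨M, hM⟩
    exact ⟨max M N, fun n hn => (gp_pos one_pos (hN n ((le_max_right _ _).trans hn))).1.2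
      (hM n ((le_max_left _ _).trans hn))⟩

/-- the sign of a boundary point -/
def Pos (ξ : Boundary Sp) : Prop := Quot.lift EvPos (fun _ _ h => propext (evPos_equiv h)) ξ

theorem pos_lim (u : GromovSeq Sp) : Pos u.lim ↔ EvPos u := Iff.rfl

/-- the sequence in the line of a coordinate -/
def gseq (U : Dm) (h : U.1.card = 1) (s : ℝ) (hs : |s| = 1) : GromovSeq (CC U) where
  seq n := ⟨s * n, Or.inl h⟩
  conv := by
    intro o R
    obtain ⟨N, hN⟩ := exists_nat_ge (R + |o.1|)
    refine ⟨N, fun m hm n hn => ?_⟩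
    have hm' : (N : ℝ) ≤ m := by exact_mod_cast hm
    have hn' : (N : ℝ) ≤ n := by exact_mod_cast hn
    unfold gprod
    rw [dist_CC, dist_CC, dist_CC]
    show R ≤ (|s * m - o.1| + |s * n - o.1| - |s * m - s * n|) / 2
    have e1 : |s * m| = m := by rw [abs_mul, hs, one_mul, abs_of_nonneg (Nat.cast_nonneg m)]
    have e2 : |s * n| = n := by rw [abs_mul, hs, one_mul, abs_of_nonneg (Nat.cast_nonneg n)]
    have e3 : |s * m - s * n| = |(m : ℝ) - n| := by rw [← mul_sub, abs_mul, hs, one_mul]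
    have h1 := abs_sub_abs_le_abs_sub (s * m) o.1
    have h2 := abs_sub_abs_le_abs_sub (s * n) o.1
    rw [e3]
    rw [e1] at h1
    rw [e2] at h2
    have h3 : |(m : ℝ) - n| ≤ m + n - 2 * N := by
      rw [abs_le]; constructor <;> linarith
    linarith

/-- weights -/
noncomputable def ww (U : Dm) : ℝ := if U.1.card = 1 then 1 / 3 else 0

theorem ww_card {U : Dm} (h : ww U ≠ 0) : U.1.card = 1 := by
  by_contra hc
  exact h (by rw [ww, if_neg hc])

/-- the boundary point -/
noncomputable def bp (s : ℝ) (hs : |s| = 1) : BPt hr where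
  w := ww
  nonneg U := by unfold ww; split_ifs <;> norm_num
  fin := Set.toFinite _
  sum := by
    show ∑ᶠ U : Dm, ww U = 1
    rw [finsum_eq_sum_of_fintype]
    unfold ww
    rw [← Finset.sum_filter, Finset.sum_const, nsmul_eq_mul]
    have : (Finset.univ.filter fun U : Dm => U.1.card = 1).card = 3 := by decide
    rw [this]
    norm_num
  orth := by
    intro U V hU hV hne
    obtain ⟨i, rfl⟩ := sing U (ww_card hU)
    obtain ⟨k, rfl⟩ := sing V (ww_card hV)
    show Disjoint ({i} : Finset (ZMod 3)) {k}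
    rw [Finset.disjoint_singleton]
    rintro rfl
    exact hne rfl
  pt := fun U hU => (gseq U (ww_card hU) s hs).lim

theorem co_z {U : Dm} (h : U.1.card = 1) (n : ℤ) : co U (z ^ n) = n := by
  obtain ⟨i, rfl⟩ := sing U h
  unfold co
  rw [if_pos h, Finset.sum_singleton, z_zpow]
  simp [tr, one3]

theorem co_one (U : Dm) : co U 1 = 0 := by
  unfold co
  split_ifs
  · simp [one_v]
  · rfl

theorem z_mem_bint (s : ℝ) (hs : |s| = 1) (n : ℤ) (R ε : ℝ) (hε : 0 < ε) (hR : 0 < R)
    (hn : R ≤ s * n) : z ^ n ∈ bint hr 1 (bp s hs) R ε := by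
  have hs2 : s * s = 1 := by
    have := abs_mul_abs_self s
    rw [hs] at this
    linarith
  have hn0 : (n : ℝ) ≠ 0 := by
    rintro h
    rw [h, mul_zero] at hn
    linarith
  refine ⟨?_, ?_, ?_⟩
  · intro U hU a ha o ho
    have hc := ww_card hU
    have ha' : a = cpt U (z ^ n) := ha
    have ho' : o = cpt U 1 := ho
    refine ⟨gseq U hc s hs, rfl, ?_⟩
    obtain ⟨N, hN⟩ := exists_nat_ge (s * n)
    refine ⟨N, fun m hm => ?_⟩
    have hm' : (N : ℝ) ≤ m := by exact_mod_cast hm
    unfold gprod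
    rw [dist_CC, dist_CC, dist_CC, ha', ho']
    show R ≤ (|co U (z ^ n) - co U 1| + |s * m - co U 1| - |co U (z ^ n) - s * m|) / 2
    rw [co_z hc, co_one, sub_zero, sub_zero]
    have e1 : |(n : ℝ)| = s * n := by
      have : |s * n| = |(n : ℝ)| := by rw [abs_mul, hs, one_mul]
      rw [← this, abs_of_nonneg (by linarith)]
    have e2 : |s * (m : ℝ)| = m := by rw [abs_mul, hs, one_mul, abs_of_nonneg (Nat.cast_nonneg m)]
    have e3 : |(n : ℝ) - s * m| = m - s * n := by
      have h1 : |(n : ℝ) - s * m| = |s * n - m| := by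
        have : s * (n - s * m) = s * n - m := by
          rw [mul_sub, ← mul_assoc, hs2, one_mul]
        rw [← this, abs_mul, hs, one_mul]
      rw [h1, abs_of_nonpos (by linarith)]
      ring
    rw [e1, e2, e3]
    linarith
  · intro U U' hU hU'
    have hU1 : ww U ≠ 0 := hU
    have hU1' : ww U' ≠ 0 := hU'
    have hc := ww_card hU1
    have hc' := ww_card hU1'
    rw [dom_eq, dom_eq, co_z hc, co_z hc', co_one, co_one]
    show |_ - ww U / ww U'| < ε
    rw [ww, if_pos hc, ww, if_pos hc', zero_sub, abs_neg, div_self (abs_ne_zero.2 hn0)]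
    norm_num
    exact hε
  · intro U V _ hV
    exfalso
    obtain ⟨i, hi⟩ := V.2
    have h1 := hV ⟨{i}, Finset.singleton_nonempty i⟩ (by
      show ww ⟨{i}, Finset.singleton_nonempty i⟩ ≠ 0
      rw [ww, if_pos (by simp)]
      norm_num)
    have h2 : Disjoint V.1 ({i} : Finset (ZMod 3)) := h1
    rw [Finset.disjoint_singleton_right] at h2
    exact h2 hi

/-- the element of the subgroup -/
def toH (x : Sp) : HH := x

open Classical in
/-- the boundary map -/
noncomputable def ff (ξ : Boundary Sp) : BPt hr :=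
  if Pos ξ then bp 1 abs_one else bp (-1) (by rw [abs_neg, abs_one])

theorem ct : CTExists str HH TT TT_top := by
  refine ⟨ff, ?_⟩
  refine (@continuous_def _ _ (gTop Sp o1) (hTop hr 1) _).2 fun O hO => ?_
  refine ⟨fun x hx => ⟨1, one_pos, fun y hy => ?_⟩, fun ξ hξ => ?_⟩
  · rw [dist_Sp] at hy
    have h1 : ex (x : HH) = ex (y : HH) := by
      have h2 : |((ex (x : HH) - ex (y : HH) : ℤ) : ℝ)| < 1 := by
        push_cast
        exact hy
      have h3 : |ex (x : HH) - ex (y : HH)| < 1 := by exact_mod_cast h2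
      rw [Int.abs_lt_one_iff] at h3
      linarith
    have h2 : x = y := ex_inj h1
    rw [← h2]
    exact hx
  · have hξ' : Sum.inr (ff ξ) ∈ O := hξ
    obtain ⟨R, ε, hε, -, h2⟩ := hO (ff ξ) hξ'
    refine ⟨max R 1, fun x hx => ?_, fun η hη => ?_⟩
    · obtain ⟨u, rfl, N, hN⟩ := hx
      show Sum.inl ((toH x : HH) : Gr) ∈ O
      apply h2
      have hx0 : ((toH x : HH) : Gr) = z ^ (ex (toH x)) := by
        conv_lhs => rw [eq_zz_ex (toH x)]
        exact zz_coe _
      rw [hx0]
      have hR1 : (0 : ℝ) < max R 1 := lt_max_of_lt_right one_pos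
      have hb : |(ex (toH x) : ℝ)| ≥ max R 1 := (gp_pos hR1 (hN N le_rfl)).2
      by_cases hp : Pos u.lim
      · have he : ff u.lim = bp 1 abs_one := by unfold ff; rw [if_pos hp]
        rw [he]
        obtain ⟨M, hM⟩ := (pos_lim u).1 hp
        have h3 := (gp_pos hR1 (hN (max M N) (le_max_right _ _))).1.2 (hM _ (le_max_left _ _))
        have h4 : (0 : ℝ) < (ex (toH x) : ℝ) := h3
        rw [abs_of_pos h4] at hb
        refine bint_mono hr 1 _ (le_max_left R 1) le_rfl (z_mem_bint 1 abs_one _ (max R 1) ε hε hR1 ?_)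
        rw [one_mul]
        exact hb
      · have he : ff u.lim = bp (-1) (by rw [abs_neg, abs_one]) := by unfold ff; rw [if_neg hp]
        rw [he]
        have h4 : ¬ (0 : ℝ) < (ex (toH x) : ℝ) := by
          intro h4
          apply hp
          exact ⟨N, fun n hn => (gp_pos hR1 (hN n hn)).1.1 h4⟩
        rw [abs_of_nonpos (not_lt.1 h4)] at hb
        refine bint_mono hr 1 _ (le_max_left R 1) le_rfl
          (z_mem_bint (-1) (by rw [abs_neg, abs_one]) _ (max R 1) ε hε hR1 ?_)
        linarith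
    · obtain ⟨u, v, rfl, rfl, N, hN⟩ := hη
      have hR1 : (0 : ℝ) < max R 1 := lt_max_of_lt_right one_pos
      have h3 : Pos u.lim ↔ Pos v.lim := by
        rw [pos_lim, pos_lim]
        constructor
        · rintro ⟨M, hM⟩
          exact ⟨max M N, fun n hn => (gp_pos hR1 (hN n ((le_max_right _ _).trans hn) n
            ((le_max_right _ _).trans hn))).1.1 (hM n ((le_max_left _ _).trans hn))⟩
        · rintro ⟨M, hM⟩
          exact ⟨max M N, fun n hn => (gp_pos hR1 (hN n ((le_max_right _ _).trans hn) n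
            ((le_max_right _ _).trans hn))).1.2 (hM n ((le_max_left _ _).trans hn))⟩
      have h4 : ff v.lim = ff u.lim := by
        unfold ff
        by_cases h : Pos u.lim
        · rw [if_pos h, if_pos (h3.1 h)]
        · rw [if_neg h, if_neg (fun h' => h (h3.2 h'))]
      show Sum.inr (ff v.lim) ∈ O
      rw [h4]
      exact hξ'

/-! The remaining properties -/

theorem HH_normal : HH.Normal := by
  constructor
  rintro _ ⟨n, rfl⟩ g
  refine ⟨n, ?_⟩
  show z ^ n = g * z ^ n * g⁻¹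
  rw [← z_comm, mul_assoc, mul_inv_cancel, mul_one]

theorem HH_infinite : Infinite HH :=
  Infinite.of_injective (fun n : ℤ => zz ^ n) fun m n h => by
    have := congrArg ex h
    simpa [ex_zpow] using this

theorem HH_index : HH.index = 0 := by
  by_contra h
  obtain ⟨n, hn, -, m, hm⟩ := Subgroup.exists_pow_mem_of_index_ne_zero h (tr (ee 0))
  have h1 : z ^ m = tr (ee 0) ^ (n : ℤ) := by rw [zpow_natCast]; exact hm
  rw [z_zpow, ← tr_zsmul] at h1
  have h2 := congrArg (fun g : Gr => g.v 0) h1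
  have h3 := congrArg (fun g : Gr => g.v 1) h1
  simp only [tr, one3, ee, Pi.smul_apply, smul_eq_mul, mul_one, if_true] at h2 h3
  rw [if_neg (by decide : ¬ (1 : ZMod 3) = 0), mul_zero] at h3
  omega

/-- the plane -/
def pl (u : ℤ × ℤ) : Gr := tr (u.1 • ee 0 + u.2 • ee 1)

theorem pl_add (u v : ℤ × ℤ) : pl (u + v) = pl u * pl v := by
  unfold pl
  rw [← tr_add]
  congr 1
  rw [Prod.fst_add, Prod.snd_add, add_smul, add_smul]
  abel

theorem pl_zero : pl 0 = 1 := by
  unfold pl
  simp [tr_zero]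

theorem pl_neg (u : ℤ × ℤ) : pl (-u) = (pl u)⁻¹ := by
  rw [eq_inv_iff_mul_eq_one, ← pl_add, neg_add_cancel, pl_zero]

theorem pl_nrm (u : ℤ × ℤ) : nrm (pl u) = |u.1| + |u.2| := by
  have h0 : (pl u).v 0 = u.1 := by
    show u.1 * (if (0 : ZMod 3) = 0 then 1 else 0) + u.2 * (if (0 : ZMod 3) = 1 then 1 else 0) = u.1
    rw [if_pos (by decide), if_neg (by decide)]; ring
  have h1 : (pl u).v 1 = u.2 := by
    show u.1 * (if (1 : ZMod 3) = 0 then 1 else 0) + u.2 * (if (1 : ZMod 3) = 1 then 1 else 0) = u.2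
    rw [if_neg (by decide), if_pos (by decide)]; ring
  have h2 : (pl u).v 2 = 0 := by
    show u.1 * (if (2 : ZMod 3) = 0 then 1 else 0) + u.2 * (if (2 : ZMod 3) = 1 then 1 else 0) = 0
    rw [if_neg (by decide), if_neg (by decide)]; ring
  unfold nrm
  rw [h0, h1, h2, abs_zero, add_zero]

theorem not_hyp (S' : Finset Gr) (hS' : Subgroup.closure (S' : Set Gr) = ⊤) :
    ¬ HypCayley S' := by
  rintro ⟨δ, hδ⟩
  obtain ⟨C, hC0, hC⟩ := nrm_le S' hS'
  obtain ⟨hb1, hb2, -⟩ := wlen_basic S' hS'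
  have hneg : ∀ u : ℤ × ℤ, (wlen S' (pl (-u)) : ℝ) = (wlen S' (pl u) : ℝ) := by
    intro u
    rw [pl_neg, hb2]
  have hwd : ∀ u v : ℤ × ℤ, wd S' (pl u) (pl v) = (wlen S' (pl (-u + v)) : ℝ) := by
    intro u v
    unfold wd
    rw [pl_add, pl_neg]
  have hC1 : 0 < C + 1 := by linarith
  refine z2_norm (fun u => (wlen S' (pl u) : ℝ)) (1 / (C + 1)) δ (by positivity) ?_ hneg ?_ ?_
  · intro u v
    simp only [pl_add]
    exact_mod_cast hb1 _ _
  · intro u
    have h1 := hC (pl u)
    rw [pl_nrm] at h1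
    push_cast at h1
    show 1 / (C + 1) * _ ≤ _
    rw [one_div, inv_mul_le_iff₀ hC1]
    have h2 : (0 : ℝ) ≤ wlen S' (pl u) := Nat.cast_nonneg _
    show |(u.1 : ℝ)| + |(u.2 : ℝ)| ≤ (C + 1) * (wlen S' (pl u) : ℝ)
    linarith
  · intro u v
    have h1 := hδ (pl 0) (pl (u + v)) (pl u) (pl v)
    rw [hwd, hwd, hwd, hwd, hwd, hwd] at h1
    have e1 : -(0 : ℤ × ℤ) + (u + v) = u + v := by simp
    have e2 : -u + v = -(u - v) := by abel
    have e3 : -(0 : ℤ × ℤ) + u = u := by simp
    have e4 : -(u + v) + v = -u := by abel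
    have e5 : -(0 : ℤ × ℤ) + v = v := by simp
    have e6 : -(u + v) + u = -v := by abel
    rw [e1, e2, e3, e4, e5, e6, hneg, hneg, hneg] at h1
    show (wlen S' (pl (u + v)) : ℝ) + (wlen S' (pl (u - v)) : ℝ) ≤
      2 * max (wlen S' (pl u) : ℝ) (wlen S' (pl v) : ℝ) + δ
    have e7 : max ((wlen S' (pl u) : ℝ) + (wlen S' (pl u) : ℝ))
        ((wlen S' (pl v) : ℝ) + (wlen S' (pl v) : ℝ)) =
        2 * max (wlen S' (pl u) : ℝ) (wlen S' (pl v) : ℝ) := by
      rw [← two_mul, ← two_mul, mul_max_of_nonneg _ _ (by norm_num : (0:ℝ) ≤ 2)]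
    rw [e7] at h1
    exact h1

end Pool.Agent.W389.CT
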