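import Mathlib

set_option autoImplicit false

/-! Coarse seminorms on abelian groups with the four point property. -/

namespace Pool.Agent.W389.CT

/-- a coarse seminorm with the four point property and coarse midpoints -/
structure PN {E : Type} [AddCommGroup E] (N : E → ℝ) (c : ℝ) : Prop where
  nn : ∀ u, 0 ≤ N u
  neg : ∀ u, N (-u) ≤ N u + c
  add : ∀ u v, N (u + v) ≤ N u + N v + c
  four : ∀ x y z w, N (x - y) + N (z - w) ≤ max (N (x - z) + N (y - w)) (N (x - w) + N (y - z)) + c
  mid : ∀ a, ∃ b, |N b - N a / 2| ≤ c ∧ |N (a - b) - N a / 2| ≤ c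

namespace PN

variable {E : Type} [AddCommGroup E] {N : E → ℝ} {c : ℝ}

theorem c_nn (h : PN N c) : 0 ≤ c := by
  obtain ⟨b, hb, -⟩ := h.mid 0
  exact (abs_nonneg _).trans hb

theorem p1 (h : PN N c) (u v : E) : N (u + v) + N (u - v) ≤ 2 * max (N u) (N v) + 2 * c := by
  have h1 := h.four (u + v) 0 u v
  rw [sub_zero, add_sub_cancel_left, add_sub_cancel_right, zero_sub, zero_sub] at h1
  have h2 := h.neg u
  have h3 := h.neg v
  rcases le_total (N u) (N v) with h4 | h4
  · rw [max_eq_right h4]
    rcases max_cases (N v + N (-v)) (N u + N (-u)) with ⟨h5, -⟩ | ⟨h5, -⟩ <;> rw [h5] at h1 <;>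
      linarith
  · rw [max_eq_left h4]
    rcases max_cases (N v + N (-v)) (N u + N (-u)) with ⟨h5, -⟩ | ⟨h5, -⟩ <;> rw [h5] at h1 <;>
      linarith

theorem hom (h : PN N c) (a : E) : 2 * N a - 53 * c ≤ N (a + a) := by
  have hc := h.c_nn
  obtain ⟨b, hb, hb'⟩ := h.mid a
  rw [abs_le] at hb hb'
  have hnn := h.nn (a + a)
  have hbn := h.nn b
  have e1 : b + (a - b) = a := by abel
  have e2 : b - (a - b) = b + b - a := by abel
  have h1 := h.p1 b (a - b)
  rw [e1, e2] at h1
  have h2 : max (N b) (N (a - b)) ≤ N a / 2 + c := max_le (by linarith [hb.2]) (by linarith [hb'.2])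
  have h3 : N (b + b - a) ≤ 4 * c := by linarith
  have h4 : N (a - (b + b)) ≤ 5 * c := by
    have := h.neg (b + b - a)
    rw [neg_sub] at this
    linarith
  have h5 : N a - 6 * c ≤ N (b + b) := by
    have := h.add (b + b) (a - (b + b))
    rw [add_sub_cancel] at this
    linarith
  have h6 : 2 * N b - 8 * c ≤ N (b + b) := by linarith [hb.2]
  have h6' : N (b + b) ≤ 2 * N b + c := by linarith [h.add b b]
  have hnb := h.neg b
  -- 3 b
  have h7 := h.four (b + b) 0 (b + b + b) b
  have e3 : b + b - 0 = b + b := by abel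
  have e4 : b + b + b - b = b + b := by abel
  have e5 : b + b - (b + b + b) = -b := by abel
  have e6 : (0 : E) - b = -b := by abel
  have e7 : b + b - b = b := by abel
  have e8 : (0 : E) - (b + b + b) = -(b + b + b) := by abel
  rw [e3, e4, e5, e6, e7, e8] at h7
  have h8 := h.neg (b + b + b)
  by_cases hsm : N b ≤ 10 * c
  · linarith [hb.1]
  push Not at hsm
  have h9 : 3 * N b - 18 * c ≤ N (b + b + b) := by
    rcases max_cases (N (-b) + N (-b)) (N b + N (-(b + b + b))) with ⟨h5, -⟩ | ⟨h5, -⟩ <;>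
      rw [h5] at h7 <;> linarith
  -- 4 b
  have h10 := h.four (b + b + b) 0 (b + b + b + b) b
  have e9 : b + b + b - 0 = b + b + b := by abel
  have e10 : b + b + b + b - b = b + b + b := by abel
  have e11 : b + b + b - (b + b + b + b) = -b := by abel
  have e12 : b + b + b - b = b + b := by abel
  have e13 : (0 : E) - (b + b + b + b) = -(b + b + b + b) := by abel
  rw [e9, e10, e11, e6, e12, e13] at h10
  have h11 := h.neg (b + b + b + b)
  have h12 : 4 * N b - 39 * c ≤ N (b + b + b + b) := by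
    rcases max_cases (N (-b) + N (-b)) (N (b + b) + N (-(b + b + b + b))) with
      ⟨h5, -⟩ | ⟨h5, -⟩ <;> rw [h5] at h10 <;> linarith
  have h13 := h.add (a + a) ((b + b - a) + (b + b - a))
  have e14 : a + a + ((b + b - a) + (b + b - a)) = b + b + b + b := by abel
  rw [e14] at h13
  have h14 := h.add (b + b - a) (b + b - a)
  linarith [hb.1]

/-- dichotomy -/
theorem max_ge (h : PN N c) (u v : E) : N u + N v - 54 * c ≤ max (N (u + v)) (N (u - v)) := by
  have h1 := h.p1 (u + v) (u - v)
  have e1 : u + v + (u - v) = u + u := by abel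
  have e2 : u + v - (u - v) = v + v := by abel
  rw [e1, e2] at h1
  linarith [h.hom u, h.hom v]

theorem min_le (h : PN N c) (u v : E) :
    min (N (u + v)) (N (u - v)) ≤ |N u - N v| + 56 * c := by
  have h1 := h.p1 u v
  have h2 := h.max_ge u v
  have h3 := min_add_max (N (u + v)) (N (u - v))
  rcases le_total (N u) (N v) with h4 | h4
  · rw [max_eq_right h4] at h1
    rw [abs_of_nonpos (by linarith)]
    linarith
  · rw [max_eq_left h4] at h1
    rw [abs_of_nonneg (by linarith)]
    linarith

/-- if `z` has unbounded multiples, every element is close to a multiple of `z` -/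
theorem cobounded (h : PN N c) (z : E) (h0 : N 0 ≤ c) (hz : ∀ B : ℝ, ∃ n : ℕ, B < N (n • z))
    (u : E) : ∃ n : ℤ, N (u - n • z) ≤ N z + 60 * c := by
  classical
  have hc := h.c_nn
  have hex : ∃ n : ℕ, N u ≤ N (n • z) := by
    obtain ⟨n, hn⟩ := hz (N u)
    exact ⟨n, hn.le⟩
  have key : ∃ n : ℕ, |N u - N (n • z)| ≤ N z + c := by
    refine ⟨Nat.find hex, ?_⟩
    have h1 := Nat.find_spec hex
    rw [abs_of_nonpos (by linarith)]
    rcases Nat.eq_zero_or_pos (Nat.find hex) with h2 | h2
    · rw [h2, zero_smul]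
      linarith [h.nn u, h.nn z]
    · obtain ⟨k, hk⟩ : ∃ k, Nat.find hex = k + 1 := ⟨Nat.find hex - 1, by omega⟩
      have h3 := Nat.find_min hex (m := k) (by omega)
      push Not at h3
      rw [hk, succ_nsmul]
      linarith [h.add (k • z) z]
  obtain ⟨n, hn⟩ := key
  have h1 := h.min_le u (n • z)
  rcases min_cases (N (u + n • z)) (N (u - n • z)) with ⟨h2, -⟩ | ⟨h2, -⟩
  · refine ⟨-(n : ℤ), ?_⟩
    rw [neg_smul, sub_neg_eq_add, natCast_zsmul]
    linarith
  · refine ⟨(n : ℤ), ?_⟩
    rw [natCast_zsmul]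
    linarith

end PN

end Pool.Agent.W389.CT
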