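import Pool.Agent.Helper548.HB.CoreLit
import Pool.Agent.Helper548.HB.P_wlen_comp

set_option autoImplicit false

/-! Hierarchically hyperbolic groups, hierarchical quasiconvexity, Cannon-Thurston maps. -/

namespace Pool.Agent.W389.CT

open Pool.Agent.Helper548.HB

/-- The subset `A` of the metric space `X` is `k`-quasiconvex: every geodesic with endpoints in `A`
stays in the `k`-neighbourhood of `A`. -/
def QConv {X : Type} [MetricSpace X] (k : ℝ) (A : Set X) : Prop :=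
  ∀ (γ : ℝ → X) (l : ℝ), IsGeod γ l → γ 0 ∈ A → γ l ∈ A →
    ∀ t ∈ Set.Icc (0 : ℝ) l, ∃ a ∈ A, dist (γ t) a ≤ k

/-- the projection of the subset `Y` of `X` to the space of the domain `U` -/
def img {X : Type} (𝔛 : Hier X) (U : 𝔛.Dom) (Y : Set X) : Set (𝔛.C U) :=
  {p | ∃ y ∈ Y, p ∈ 𝔛.π U y}

/-- The axioms of a hierarchically hyperbolic space (Behrstock, Hagen, Sisto) for the hierarchy `𝔛`
on the set `X` with the distance function `d`. One constant `K` serves for all the constants of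
the axioms. The projections are not assumed to be coarsely surjective (only to have quasiconvex
image). -/
structure HHSAx {X : Type} (d : X → X → ℝ) (𝔛 : Hier X) (K : ℝ) : Prop where
  one_le : 1 ≤ K
  geod : ∀ U, GeodesicSpace (𝔛.C U)
  hyp : ∀ U, HypC (𝔛.C U) K
  -- projections
  π_ne : ∀ U x, (𝔛.π U x).Nonempty
  π_diam : ∀ U x, DiamLE K (𝔛.π U x)
  π_lip : ∀ U x y, ∀ p ∈ 𝔛.π U x, ∀ q ∈ 𝔛.π U y, dist p q ≤ K * d x y + K
  π_qc : ∀ U, QConv K (img 𝔛 U Set.univ)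
  -- nesting
  nest_refl : ∀ U, 𝔛.nest U U
  nest_antisymm : ∀ U V, 𝔛.nest U V → 𝔛.nest V U → U = V
  nest_trans : ∀ U V W, 𝔛.nest U V → 𝔛.nest V W → 𝔛.nest U W
  nest_max : ∃ S, ∀ U, 𝔛.nest U S
  ρ_ne : ∀ V W, (𝔛.pnest V W ∨ 𝔛.trans V W) → (𝔛.ρ V W).Nonempty
  ρ_diam : ∀ V W, (𝔛.pnest V W ∨ 𝔛.trans V W) → DiamLE K (𝔛.ρ V W)
  ρd_ne : ∀ V W, 𝔛.pnest V W → ∀ p, (𝔛.ρd W V p).Nonempty
  -- orthogonality
  orth_symm : ∀ U V, 𝔛.orth U V → 𝔛.orth V U
  orth_irrefl : ∀ U, ¬ 𝔛.orth U U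
  orth_nest : ∀ V W U, 𝔛.nest V W → 𝔛.orth W U → 𝔛.orth V U
  container : ∀ T U, 𝔛.nest U T → (∃ V, 𝔛.nest V T ∧ 𝔛.orth V U) →
    ∃ W, 𝔛.pnest W T ∧ ∀ V, 𝔛.nest V T → 𝔛.orth V U → 𝔛.nest V W
  orth_not_nest : ∀ V W, 𝔛.orth V W → ¬ 𝔛.nest V W ∧ ¬ 𝔛.nest W V
  -- consistency
  cons_trans : ∀ V W, 𝔛.trans V W → ∀ x,
    sd (𝔛.π W x) (𝔛.ρ V W) ≤ K ∨ sd (𝔛.π V x) (𝔛.ρ W V) ≤ K
  cons_nest : ∀ V W, 𝔛.pnest V W → ∀ x,
    sd (𝔛.π W x) (𝔛.ρ V W) ≤ K ∨ DiamLE K (𝔛.π V x ∪ ⋃ p ∈ 𝔛.π W x, 𝔛.ρd W V p)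
  cons_ρ : ∀ U V W, 𝔛.nest U V → (𝔛.pnest V W ∨ (𝔛.trans V W ∧ ¬ 𝔛.orth W U)) →
    sd (𝔛.ρ U W) (𝔛.ρ V W) ≤ K
  -- finite complexity
  complexity : ∃ n : ℕ, ∀ s : Finset 𝔛.Dom, (∀ U ∈ s, ∀ V ∈ s, 𝔛.nest U V ∨ 𝔛.nest V U) →
    s.card ≤ n
  -- large links
  large_links : ∀ W x x', ∃ F : Finset 𝔛.Dom, (F.card : ℝ) ≤ K * 𝔛.dom W x x' + K ∧
    (∀ T ∈ F, 𝔛.pnest T W ∧ sd (𝔛.π W x) (𝔛.ρ T W) ≤ K * 𝔛.dom W x x' + K) ∧
    ∀ U, 𝔛.pnest U W → (∃ T ∈ F, 𝔛.nest U T) ∨ 𝔛.dom U x x' < K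
  -- bounded geodesic image
  bgi : ∀ V W, 𝔛.pnest V W → ∀ (γ : ℝ → 𝔛.C W) (l : ℝ), IsGeod γ l →
    DiamLE K (⋃ t ∈ Set.Icc (0 : ℝ) l, 𝔛.ρd W V (γ t)) ∨
    ∃ t ∈ Set.Icc (0 : ℝ) l, ∃ p ∈ 𝔛.ρ V W, dist (γ t) p ≤ K
  -- partial realization
  realization : ∀ (F : Set 𝔛.Dom), (∀ U ∈ F, ∀ V ∈ F, U ≠ V → 𝔛.orth U V) →
    ∀ p : ∀ U, 𝔛.C U, (∀ U ∈ F, p U ∈ img 𝔛 U Set.univ) →
    ∃ x, ∀ U ∈ F, sd (𝔛.π U x) {p U} ≤ K ∧
      (∀ W, (𝔛.pnest U W ∨ 𝔛.trans U W) → sd (𝔛.π W x) (𝔛.ρ U W) ≤ K)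
  -- uniqueness
  uniqueness : ∀ κ : ℝ, ∃ θ : ℝ, ∀ x y, θ ≤ d x y → ∃ U, κ ≤ 𝔛.dom U x y

/-- A hierarchically hyperbolic group structure on `G` (generated by the finite set `S`): a
hierarchically hyperbolic structure on `G` with the word metric, an action of `G` on the set of
domains with finitely many orbits, preserving nesting and orthogonality (hence transversality),
and isometries `C U → C (g U)`, compatible with products and, up to the error `K`, with the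
projections and with the relative projections. -/
structure HHGs (G : Type) [Group G] (S : Finset G) where
  H : Hier G
  K : ℝ
  ax : HHSAx (wd S) H K
  act : G → H.Dom → H.Dom
  act_one : ∀ U, act 1 U = U
  act_mul : ∀ g h U, act (g * h) U = act g (act h U)
  cofinite : ∃ F : Finset H.Dom, ∀ U, ∃ g, ∃ V ∈ F, act g V = U
  act_nest : ∀ g U V, H.nest (act g U) (act g V) ↔ H.nest U V
  act_orth : ∀ g U V, H.orth (act g U) (act g V) ↔ H.orth U V
  iso : ∀ (g : G) (U : H.Dom), H.C U → H.C (act g U)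
  iso_isom : ∀ g U p q, dist (iso g U p) (iso g U q) = dist p q
  iso_surj : ∀ g U, Function.Surjective (iso g U)
  iso_one : ∀ U p, HEq (iso 1 U p) p
  iso_mul : ∀ g h U p, HEq (iso (g * h) U p) (iso g (act h U) (iso h U p))
  iso_π : ∀ g U x, ∀ p ∈ H.π U x, ∃ q ∈ H.π (act g U) (g * x), dist (iso g U p) q ≤ K
  iso_ρ : ∀ g U V, (H.pnest U V ∨ H.trans U V) → ∀ p ∈ H.ρ U V,
    ∃ q ∈ H.ρ (act g U) (act g V), dist (iso g V p) q ≤ K
  iso_ρd : ∀ g W V p, H.pnest V W → ∀ a ∈ H.ρd W V p,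
    ∃ b ∈ H.ρd (act g W) (act g V) (iso g W p), dist (iso g V a) b ≤ K

/-- The subset `Y` of `G` is hierarchically quasiconvex for the given structure: its projections
to the hyperbolic spaces are uniformly quasiconvex, and every point of `G` all of whose projections
are uniformly close to those of `Y` is itself uniformly close to `Y`. -/
def HQC {G : Type} [Group G] {S : Finset G} (𝔊 : HHGs G S) (Y : Set G) : Prop :=
  (∃ k : ℝ, ∀ U, QConv k (img 𝔊.H U Y)) ∧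
  ∀ κ : ℝ, ∃ r : ℝ, ∀ x : G, (∀ U, sd (𝔊.H.π U x) (img 𝔊.H U Y) ≤ κ) → ∃ y ∈ Y, wd S x y ≤ r

theorem wd_self' {H : Type} [Group H] (T : Finset H) (x : H) : wd T x x = 0 := by
  unfold wd
  rw [inv_mul_cancel, wl_one]
  simp

theorem wd_comm' {H : Type} [Group H] {T : Finset H} (hT : Subgroup.closure (T : Set H) = ⊤)
    (x y : H) : wd T x y = wd T y x := by
  unfold wd
  have h : y⁻¹ * x = (x⁻¹ * y)⁻¹ := by rw [mul_inv_rev, inv_inv]
  rw [h, (wlen_basic T hT).2.1]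

theorem wd_triangle' {H : Type} [Group H] {T : Finset H}
    (hT : Subgroup.closure (T : Set H) = ⊤) (x y z : H) : wd T x z ≤ wd T x y + wd T y z := by
  unfold wd
  have h : x⁻¹ * z = (x⁻¹ * y) * (y⁻¹ * z) := by group
  rw [h]
  exact_mod_cast (wlen_basic T hT).1 _ _

theorem wd_eq_zero' {H : Type} [Group H] {T : Finset H}
    (hT : Subgroup.closure (T : Set H) = ⊤) (x y : H) (h : wd T x y = 0) : x = y := by
  have h1 : wlen T (x⁻¹ * y) = 0 := by
    have h0 : ((wlen T (x⁻¹ * y) : ℕ) : ℝ) = 0 := h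
    exact_mod_cast h0
  obtain ⟨l, hl, -, hp⟩ := wl_exists T hT (x⁻¹ * y)
  rw [h1] at hl
  rw [List.length_eq_zero_iff.1 hl, List.prod_nil] at hp
  exact inv_mul_eq_one.1 hp.symm

/-- The group `H` as a metric space, with the word metric of the finite generating set `T`. -/
def WordSp {H : Type} [Group H] (T : Finset H) (_ : Subgroup.closure (T : Set H) = ⊤) : Type := H

noncomputable instance {H : Type} [Group H] (T : Finset H)
    (hT : Subgroup.closure (T : Set H) = ⊤) : MetricSpace (WordSp T hT) where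
  dist := wd (G := H) T
  dist_self := wd_self' (H := H) T
  dist_comm := wd_comm' (H := H) hT
  dist_triangle := wd_triangle' (H := H) hT
  eq_of_dist_eq_zero := fun {x y} h => wd_eq_zero' (H := H) hT x y h

/-- The topology of the Gromov compactification `X ∪ ∂X` (base point `o`): a set `O` is open if
its trace on `X` is open and if, for every boundary point `ξ` in `O`, it contains for some `R` all
the points of `X` and of `∂X` whose Gromov product with `ξ` is at least `R`. -/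
@[reducible] def gTop (X : Type) [MetricSpace X] (o : X) : TopologicalSpace (X ⊕ Boundary X) where
  IsOpen O := (∀ x, Sum.inl x ∈ O → ∃ r > 0, ∀ y, dist x y < r → Sum.inl y ∈ O) ∧
    ∀ ξ, Sum.inr ξ ∈ O → ∃ R : ℝ, (∀ x, PB o R x ξ → Sum.inl x ∈ O) ∧
      ∀ η, Near o R ξ η → Sum.inr η ∈ O
  isOpen_univ := ⟨fun _ _ => ⟨1, one_pos, fun _ _ => trivial⟩,
    fun _ _ => ⟨0, fun _ _ => trivial, fun _ _ => trivial⟩⟩
  isOpen_inter := by
    rintro U V ⟨hU, hU'⟩ ⟨hV, hV'⟩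
    refine ⟨fun x hx => ?_, fun ξ hξ => ?_⟩
    · obtain ⟨r, hr, h⟩ := hU x hx.1
      obtain ⟨r', hr', h'⟩ := hV x hx.2
      exact ⟨min r r', lt_min hr hr', fun y hy =>
        ⟨h y (hy.trans_le (min_le_left _ _)), h' y (hy.trans_le (min_le_right _ _))⟩⟩
    · obtain ⟨R, h1, h2⟩ := hU' ξ hξ.1
      obtain ⟨R', h1', h2'⟩ := hV' ξ hξ.2
      exact ⟨max R R', fun x hx => ⟨h1 x (hx.mono (le_max_left _ _)),
        h1' x (hx.mono (le_max_right _ _))⟩, fun η hη => ⟨h2 η (hη.mono (le_max_left _ _)),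
        h2' η (hη.mono (le_max_right _ _))⟩⟩
  isOpen_sUnion := by
    intro s hs
    refine ⟨fun x ⟨U, hU, hx⟩ => ?_, fun ξ ⟨U, hU, hξ⟩ => ?_⟩
    · obtain ⟨r, hr, h⟩ := (hs U hU).1 x hx
      exact ⟨r, hr, fun y hy => ⟨U, hU, h y hy⟩⟩
    · obtain ⟨R, h1, h2⟩ := (hs U hU).2 ξ hξ
      exact ⟨R, fun x hx => ⟨U, hU, h1 x hx⟩, fun η hη => ⟨U, hU, h2 η hη⟩⟩

/-- The interior part of the basic neighbourhood of the boundary point `p` in `X ∪ ∂X` (Durham,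
Hagen, Sisto): the points `x` of `X` whose projections to the domains of the support of `p` are
`R`-close to the points of `p`, for which the quotients of the distances from the base point in
these domains are `ε`-close to the quotients of the weights, and for which the distance from the
base point in any domain orthogonal to the whole support is less than `ε` times those distances. -/
def bint {X : Type} (𝔛 : Hier X) (x₀ : X) (p : BPt 𝔛) (R ε : ℝ) : Set X :=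
  {x | (∀ U, ∀ hp : p.w U ≠ 0, ∀ a ∈ 𝔛.π U x, ∀ o ∈ 𝔛.π U x₀, PB o R a (p.pt U hp)) ∧
    (∀ U U', p.w U ≠ 0 → p.w U' ≠ 0 →
      |𝔛.dom U x₀ x / 𝔛.dom U' x₀ x - p.w U / p.w U'| < ε) ∧
    (∀ U V, p.w U ≠ 0 → (∀ U', p.w U' ≠ 0 → 𝔛.orth V U') →
      𝔛.dom V x₀ x / 𝔛.dom U x₀ x < ε)}

theorem bint_mono {X : Type} (𝔛 : Hier X) (x₀ : X) (p : BPt 𝔛) {R R' ε ε' : ℝ}
    (hR : R' ≤ R) (hε : ε ≤ ε') : bint 𝔛 x₀ p R ε ⊆ bint 𝔛 x₀ p R' ε' := by
  rintro x ⟨h1, h2, h3⟩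
  exact ⟨fun U hp a ha o ho => (h1 U hp a ha o ho).mono hR,
    fun U U' k1 k2 => (h2 U U' k1 k2).trans_le hε,
    fun U V k1 k2 => (h3 U V k1 k2).trans_le hε⟩

/-- The topology of the compactification `X ∪ ∂X` of Durham, Hagen and Sisto for a discrete `X`
(the vertices of a Cayley graph): a set is open if, with each boundary point, it contains the
boundary part (remote and non-remote part) and the interior part of a basic neighbourhood. -/
@[reducible] def hTop {X : Type} (𝔛 : Hier X) (x₀ : X) : TopologicalSpace (X ⊕ BPt 𝔛) where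
  IsOpen O := ∀ p, Sum.inr p ∈ O → ∃ R ε : ℝ, 0 < ε ∧
    (∀ q ∈ bnhdLit 𝔛 x₀ p R ε, Sum.inr q ∈ O) ∧ ∀ x ∈ bint 𝔛 x₀ p R ε, Sum.inl x ∈ O
  isOpen_univ := fun _ _ => ⟨0, 1, one_pos, fun _ _ => trivial, fun _ _ => trivial⟩
  isOpen_inter := by
    intro U V hU hV p hp
    obtain ⟨R, ε, hε, h1, h2⟩ := hU p hp.1
    obtain ⟨R', ε', hε', h1', h2'⟩ := hV p hp.2
    refine ⟨max R R', min ε ε', lt_min hε hε', fun q hq => ⟨h1 q ?_, h1' q ?_⟩,
      fun x hx => ⟨h2 x ?_, h2' x ?_⟩⟩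
    · exact bnhdLit_mono 𝔛 x₀ p (le_max_left _ _) (min_le_left _ _) hq
    · exact bnhdLit_mono 𝔛 x₀ p (le_max_right _ _) (min_le_right _ _) hq
    · exact bint_mono 𝔛 x₀ p (le_max_left _ _) (min_le_left _ _) hx
    · exact bint_mono 𝔛 x₀ p (le_max_right _ _) (min_le_right _ _) hx
  isOpen_sUnion := by
    intro s hs p hp
    obtain ⟨U, hU, hpU⟩ := hp
    obtain ⟨R, ε, hε, h1, h2⟩ := hs U hU p hpU
    exact ⟨R, ε, hε, fun q hq => ⟨U, hU, h1 q hq⟩, fun x hx => ⟨U, hU, h2 x hx⟩⟩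

/-- The Cannon-Thurston map exists for the subgroup `H` (with finite generating set `T`) of `G`
with the hierarchically hyperbolic structure `𝔊`: the inclusion of `H` in `G` and some map from
the Gromov boundary of `H` to the hierarchically hyperbolic boundary of `G` form together a
continuous map of the compactifications. -/
def CTExists {G : Type} [Group G] {S : Finset G} (𝔊 : HHGs G S) (H : Subgroup G) (T : Finset H)
    (hT : Subgroup.closure (T : Set H) = ⊤) : Prop :=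
  ∃ f : Boundary (WordSp T hT) → BPt 𝔊.H,
    @Continuous (WordSp T hT ⊕ Boundary (WordSp T hT)) (G ⊕ BPt 𝔊.H)
      (gTop (WordSp T hT) (1 : H)) (hTop 𝔊.H 1) (Sum.map (fun h : H => (h : G)) f)

end Pool.Agent.W389.CT
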