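import Pool.Agent.W389.CT.Defs

set_option autoImplicit false

/-! The wreath product of the integers and the cyclic group of order three. -/

namespace Pool.Agent.W389.CT

open Pool.Agent.Helper548.HB

abbrev E3 : Type := ZMod 3 → ℤ

/-- the wreath product of `ℤ` and `ℤ/3` -/
@[ext] structure Gr where
  v : E3
  j : ZMod 3

namespace Gr

instance : Mul Gr := ⟨fun a b => ⟨fun i => a.v i + b.v (i - a.j), a.j + b.j⟩⟩
instance : One Gr := ⟨⟨0, 0⟩⟩
instance : Inv Gr := ⟨fun a => ⟨fun i => -a.v (i + a.j), -a.j⟩⟩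

theorem mul_v (a b : Gr) (i : ZMod 3) : (a * b).v i = a.v i + b.v (i - a.j) := rfl
theorem mul_j (a b : Gr) : (a * b).j = a.j + b.j := rfl
theorem one_v (i : ZMod 3) : (1 : Gr).v i = 0 := rfl
theorem one_j : (1 : Gr).j = 0 := rfl
theorem inv_v (a : Gr) (i : ZMod 3) : (a⁻¹).v i = -a.v (i + a.j) := rfl
theorem inv_j (a : Gr) : (a⁻¹).j = -a.j := rfl

instance : Group Gr := Group.ofLeftAxioms
  (by
    intro a b c
    ext i
    · simp only [mul_v, mul_j]
      rw [add_assoc, sub_sub]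
    · simp only [mul_j]
      rw [add_assoc])
  (by
    intro a
    ext i
    · simp only [mul_v, one_v, one_j, sub_zero, zero_add]
    · simp only [mul_j, one_j, zero_add])
  (by
    intro a
    ext i
    · simp only [mul_v, inv_v, inv_j, one_v, sub_neg_eq_add, neg_add_cancel]
    · simp only [mul_j, inv_j, one_j, neg_add_cancel])

/-- the translations -/
def tr (u : E3) : Gr := ⟨u, 0⟩

/-- the rotations -/
def rot (k : ZMod 3) : Gr := ⟨0, k⟩

theorem tr_add (u w : E3) : tr (u + w) = tr u * tr w := by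
  ext i
  · simp [tr, mul_v]
  · simp [tr, mul_j]

theorem tr_zero : tr 0 = 1 := rfl

theorem tr_neg (u : E3) : tr (-u) = (tr u)⁻¹ := by
  rw [eq_inv_iff_mul_eq_one, ← tr_add, neg_add_cancel, tr_zero]

theorem rot_zero : rot 0 = 1 := rfl

theorem rot_add (k l : ZMod 3) : rot (k + l) = rot k * rot l := by
  ext i
  · simp [rot, mul_v]
  · simp [rot, mul_j]

theorem eq_tr_rot (g : Gr) : g = tr g.v * rot g.j := by
  ext i
  · simp [tr, rot, mul_v]
  · simp [tr, rot, mul_j]

/-- the shift by `k` -/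
def sh (k : ZMod 3) (u : E3) : E3 := fun i => u (i - k)

theorem rot_tr (k : ZMod 3) (u : E3) : rot k * tr u = tr (sh k u) * rot k := by
  ext i
  · simp [tr, rot, mul_v, sh]
  · simp [tr, rot, mul_j]

theorem inv_mul_tr_mul (y : Gr) (u : E3) : y⁻¹ * (tr u * y) = tr (sh (-y.j) u) := by
  ext i
  · simp [tr, mul_v, inv_v, inv_j, sh]
  · simp [tr, mul_j, inv_j]

/-- the constant function one -/
def one3 : E3 := fun _ => 1

/-- the generator of the subgroup -/
def z : Gr := tr one3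

theorem tr_zsmul (n : ℤ) (u : E3) : tr (n • u) = tr u ^ n := by
  have hnat : ∀ n : ℕ, tr ((n : ℤ) • u) = tr u ^ n := by
    intro n
    induction n with
    | zero => simp [tr_zero]
    | succ k ih =>
      rw [pow_succ, ← ih, ← tr_add]
      congr 1
      push_cast
      rw [add_smul, one_smul]
  obtain ⟨m, rfl | rfl⟩ := n.eq_nat_or_neg
  · rw [zpow_natCast, hnat]
  · rw [zpow_neg, zpow_natCast, neg_smul, tr_neg, hnat]

theorem z_zpow (n : ℤ) : z ^ n = tr (n • one3) := (tr_zsmul n one3).symm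

theorem z_comm (n : ℤ) (g : Gr) : z ^ n * g = g * z ^ n := by
  rw [z_zpow]
  ext i
  · simp [tr, mul_v, one3]; ring
  · simp [tr, mul_j]

theorem sh_sum (u : E3) : u + sh (-1) u + sh (-2) u = (u 0 + u 1 + u 2) • one3 := by
  funext i
  show u i + u (i - -1) + u (i - -2) = (u 0 + u 1 + u 2) • (1 : ℤ)
  fin_cases i
  · show u 0 + u 1 + u 2 = _
    simp
  · show u 1 + u 2 + u 0 = _
    simp; ring
  · show u 2 + u 0 + u 1 = _
    simp; ring

theorem sh_sum' (u : E3) : u + sh 1 u + sh 2 u = (u 0 + u 1 + u 2) • one3 := by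
  funext i
  show u i + u (i - 1) + u (i - 2) = (u 0 + u 1 + u 2) • (1 : ℤ)
  fin_cases i
  · show u 0 + u 2 + u 1 = _
    simp; ring
  · show u 1 + u 0 + u 2 = _
    simp; ring
  · show u 2 + u 1 + u 0 = _
    simp; ring

/-- the sum of the absolute values of the coordinates -/
def nrm (g : Gr) : ℤ := |g.v 0| + |g.v 1| + |g.v 2|

theorem nrm_eq_sum (g : Gr) : nrm g = ∑ i, |g.v i| := by
  have : (Finset.univ : Finset (ZMod 3)) = {0, 1, 2} := by decide
  rw [this, Finset.sum_insert (by decide), Finset.sum_insert (by decide), Finset.sum_singleton]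
  unfold nrm
  ring

theorem nrm_mul (g h : Gr) : nrm (g * h) ≤ nrm g + nrm h := by
  rw [nrm_eq_sum, nrm_eq_sum, nrm_eq_sum]
  have h1 : ∑ i, |h.v i| = ∑ i, |h.v (i - g.j)| :=
    (Equiv.sum_comp (Equiv.subRight g.j) (fun i => |h.v i|)).symm
  rw [h1, ← Finset.sum_add_distrib]
  exact Finset.sum_le_sum fun i _ => abs_add_le _ _

theorem nrm_inv (g : Gr) : nrm g⁻¹ = nrm g := by
  rw [nrm_eq_sum, nrm_eq_sum]
  have h1 : ∑ i, |g.v i| = ∑ i, |g.v (i + g.j)| :=
    (Equiv.sum_comp (Equiv.addRight g.j) (fun i => |g.v i|)).symm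
  rw [h1]
  exact Finset.sum_congr rfl fun i _ => by rw [inv_v, abs_neg]

theorem nrm_inv_mul (x y : Gr) : nrm (x⁻¹ * y) = ∑ i, |y.v i - x.v i| := by
  rw [nrm_eq_sum]
  have h1 : ∑ i, |y.v i - x.v i| = ∑ i, |y.v (i + x.j) - x.v (i + x.j)| :=
    (Equiv.sum_comp (Equiv.addRight x.j) (fun i => |y.v i - x.v i|)).symm
  rw [h1]
  refine Finset.sum_congr rfl fun i _ => ?_
  rw [mul_v, inv_v, inv_j, sub_neg_eq_add]
  congr 1
  ring

theorem nrm_nonneg (g : Gr) : 0 ≤ nrm g := by
  unfold nrm; positivity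

/-- the norm is at most a multiple of the word length -/
theorem nrm_le (S : Finset Gr) (hS : Subgroup.closure (S : Set Gr) = ⊤) :
    ∃ C : ℝ, 0 ≤ C ∧ ∀ g : Gr, (nrm g : ℝ) ≤ C * wlen S g := by
  classical
  obtain ⟨K, hK⟩ : ∃ K : ℤ, K = ∑ s ∈ S, nrm s := ⟨_, rfl⟩
  have hK0 : 0 ≤ K := by rw [hK]; exact Finset.sum_nonneg fun i _ => nrm_nonneg i
  have hx : ∀ x : Gr, x ∈ S ∨ x⁻¹ ∈ S → nrm x ≤ K := by
    have h1 : ∀ x ∈ S, nrm x ≤ K := by
      intro x hx
      rw [hK]
      exact Finset.single_le_sum (f := fun s => nrm s) (fun i _ => nrm_nonneg i) hx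
    intro x hx
    rcases hx with hx | hx
    · exact h1 x hx
    · rw [← nrm_inv]; exact h1 _ hx
  have hlist : ∀ l : List Gr, (∀ x ∈ l, x ∈ S ∨ x⁻¹ ∈ S) → nrm l.prod ≤ K * l.length := by
    intro l
    induction l with
    | nil => intro _; simp [nrm, one_v]
    | cons a l ih =>
      intro hl
      rw [List.prod_cons, List.length_cons]
      have h1 := nrm_mul a l.prod
      have h2 := ih (fun x hx => hl x (List.mem_cons_of_mem _ hx))
      have h3 := hx a (hl a List.mem_cons_self)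
      push_cast
      linarith
  refine ⟨K, by exact_mod_cast hK0, fun g => ?_⟩
  obtain ⟨l, hl, hlS, hlg⟩ := wl_exists S hS g
  have h1 := hlist l hlS
  rw [hlg, hl] at h1
  exact_mod_cast h1

end Gr

end Pool.Agent.W389.CT
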