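import Pool.Agent.W389.CT.Defs

set_option autoImplicit false

/-! Elementary coarse geometry of hierarchically hyperbolic groups. -/

namespace Pool.Agent.W389.CT

open Pool.Agent.Helper548.HB

theorem sd_le_of {X : Type} [MetricSpace X] {A B : Set X} {a b : X} (ha : a ∈ A) (hb : b ∈ B) :
    sd A B ≤ dist a b :=
  csInf_le ⟨0, by rintro _ ⟨x, _, y, _, rfl⟩; exact dist_nonneg⟩ ⟨a, ha, b, hb, rfl⟩

theorem exists_of_sd {X : Type} [MetricSpace X] {A B : Set X} (hA : A.Nonempty) (hB : B.Nonempty)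
    {r : ℝ} (h : sd A B ≤ r) : ∃ a ∈ A, ∃ b ∈ B, dist a b ≤ r + 1 := by
  obtain ⟨a, ha⟩ := hA
  obtain ⟨b, hb⟩ := hB
  have h1 : sInf {r | ∃ a ∈ A, ∃ b ∈ B, r = dist a b} < r + 1 := by
    have : sInf {r | ∃ a ∈ A, ∃ b ∈ B, r = dist a b} ≤ r := h
    linarith
  have hne : {r | ∃ a ∈ A, ∃ b ∈ B, r = dist a b}.Nonempty := ⟨_, a, ha, b, hb, rfl⟩
  obtain ⟨x, ⟨a, ha, b, hb, rfl⟩, hx⟩ := exists_lt_of_csInf_lt hne h1
  exact ⟨a, ha, b, hb, hx.le⟩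

theorem sd_nonneg' {X : Type} [MetricSpace X] (A B : Set X) : 0 ≤ sd A B :=
  Real.sInf_nonneg (by rintro _ ⟨x, _, y, _, rfl⟩; exact dist_nonneg)

theorem four_of_hyp {X : Type} [MetricSpace X] {δ : ℝ} (h : HypC X δ) (p q r s : X) :
    dist p q + dist r s ≤ max (dist p r + dist q s) (dist p s + dist q r) + 2 * δ := by
  have h1 := h s p q r
  unfold gprod at h1
  have e1 := dist_comm q r
  rcases min_cases ((dist p s + dist r s - dist p r) / 2) ((dist r s + dist q s - dist r q) / 2)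
    with ⟨h2, -⟩ | ⟨h2, -⟩ <;> rw [h2] at h1
  · have := le_max_left (dist p r + dist q s) (dist p s + dist q r)
    linarith
  · have := le_max_right (dist p r + dist q s) (dist p s + dist q r)
    rw [dist_comm r q] at h1
    linarith

section

variable {G : Type} [Group G] {S : Finset G} (𝔊 : HHGs G S)

/-- a point of the projection -/
noncomputable def cc (U : 𝔊.H.Dom) (x : G) : 𝔊.H.C U := (𝔊.ax.π_ne U x).some

theorem cc_mem (U : 𝔊.H.Dom) (x : G) : cc 𝔊 U x ∈ 𝔊.H.π U x := (𝔊.ax.π_ne U x).some_mem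

/-- distance of the projections -/
noncomputable def D (U : 𝔊.H.Dom) (x y : G) : ℝ := dist (cc 𝔊 U x) (cc 𝔊 U y)

theorem D_nn (U : 𝔊.H.Dom) (x y : G) : 0 ≤ D 𝔊 U x y := dist_nonneg
theorem D_comm (U : 𝔊.H.Dom) (x y : G) : D 𝔊 U x y = D 𝔊 U y x := dist_comm _ _
theorem D_self (U : 𝔊.H.Dom) (x : G) : D 𝔊 U x x = 0 := dist_self _
theorem D_tri (U : 𝔊.H.Dom) (x y z : G) : D 𝔊 U x z ≤ D 𝔊 U x y + D 𝔊 U y z :=
  dist_triangle _ _ _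

theorem K_pos : 1 ≤ 𝔊.K := 𝔊.ax.one_le

theorem D_le (U : 𝔊.H.Dom) (x y : G) : D 𝔊 U x y ≤ 𝔊.K * wd S x y + 𝔊.K :=
  𝔊.ax.π_lip U x y _ (cc_mem 𝔊 U x) _ (cc_mem 𝔊 U y)

theorem iso_cc (g : G) (U : 𝔊.H.Dom) (x : G) :
    dist (𝔊.iso g U (cc 𝔊 U x)) (cc 𝔊 (𝔊.act g U) (g * x)) ≤ 2 * 𝔊.K := by
  obtain ⟨q, hq, h1⟩ := 𝔊.iso_π g U x _ (cc_mem 𝔊 U x)
  have h2 := 𝔊.ax.π_diam (𝔊.act g U) (g * x) q hq _ (cc_mem 𝔊 _ _)
  linarith [dist_triangle (𝔊.iso g U (cc 𝔊 U x)) q (cc 𝔊 (𝔊.act g U) (g * x))]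

theorem D_act_le (g : G) (U : 𝔊.H.Dom) (x y : G) :
    D 𝔊 (𝔊.act g U) (g * x) (g * y) ≤ D 𝔊 U x y + 4 * 𝔊.K := by
  have h1 := iso_cc 𝔊 g U x
  have h2 := iso_cc 𝔊 g U y
  have h3 := 𝔊.iso_isom g U (cc 𝔊 U x) (cc 𝔊 U y)
  have h4 := dist_triangle4 (cc 𝔊 (𝔊.act g U) (g * x)) (𝔊.iso g U (cc 𝔊 U x))
    (𝔊.iso g U (cc 𝔊 U y)) (cc 𝔊 (𝔊.act g U) (g * y))
  rw [dist_comm (cc 𝔊 (𝔊.act g U) (g * x)) (𝔊.iso g U (cc 𝔊 U x))] at h4
  unfold D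
  linarith

theorem D_le_act (g : G) (U : 𝔊.H.Dom) (x y : G) :
    D 𝔊 U x y ≤ D 𝔊 (𝔊.act g U) (g * x) (g * y) + 4 * 𝔊.K := by
  have h1 := iso_cc 𝔊 g U x
  have h2 := iso_cc 𝔊 g U y
  have h3 := 𝔊.iso_isom g U (cc 𝔊 U x) (cc 𝔊 U y)
  have h4 := dist_triangle4 (𝔊.iso g U (cc 𝔊 U x)) (cc 𝔊 (𝔊.act g U) (g * x))
    (cc 𝔊 (𝔊.act g U) (g * y)) (𝔊.iso g U (cc 𝔊 U y))
  rw [dist_comm (cc 𝔊 (𝔊.act g U) (g * y)) (𝔊.iso g U (cc 𝔊 U y))] at h4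
  unfold D
  linarith

/-- if `π U x` is close to a set containing `b`, with diameter at most `K`, -/
theorem cc_near {U : 𝔊.H.Dom} {x : G} {B : Set (𝔊.H.C U)} (hB : DiamLE 𝔊.K B) {b : 𝔊.H.C U}
    (hb : b ∈ B) (h : sd (𝔊.H.π U x) B ≤ 𝔊.K) : dist (cc 𝔊 U x) b ≤ 4 * 𝔊.K := by
  obtain ⟨p, hp, q, hq, h1⟩ := exists_of_sd (𝔊.ax.π_ne U x) ⟨b, hb⟩ h
  have h2 := 𝔊.ax.π_diam U x _ (cc_mem 𝔊 U x) p hp
  have h3 := hB q hq b hb
  linarith [dist_triangle4 (cc 𝔊 U x) p q b, K_pos 𝔊]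

/-- the domain has unbounded projections -/
def Unb (U : 𝔊.H.Dom) : Prop := ∀ R : ℝ, ∃ x y : G, R < D 𝔊 U x y

theorem Unb.act {U : 𝔊.H.Dom} (h : Unb 𝔊 U) (g : G) : Unb 𝔊 (𝔊.act g U) := by
  intro R
  obtain ⟨x, y, hxy⟩ := h (R + 4 * 𝔊.K)
  exact ⟨g * x, g * y, by linarith [D_le_act 𝔊 g U x y]⟩

/-- three points pairwise far apart -/
theorem Unb.three {U : 𝔊.H.Dom} (h : Unb 𝔊 U) (R : ℝ) :
    ∃ x y w : G, R < D 𝔊 U x y ∧ R < D 𝔊 U x w ∧ R < D 𝔊 U y w := by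
  obtain ⟨x, y, hxy⟩ := h |R|
  obtain ⟨u, w, huw⟩ := h (2 * (|R| + D 𝔊 U x y) )
  have h0 := le_abs_self R
  have h0' := abs_nonneg R
  -- one of `u`, `w` is far from `x`
  have h1 : |R| + D 𝔊 U x y < D 𝔊 U x u ∨ |R| + D 𝔊 U x y < D 𝔊 U x w := by
    by_contra hcon
    push Not at hcon
    have := D_tri 𝔊 U u x w
    rw [D_comm 𝔊 U u x] at this
    linarith [hcon.1, hcon.2]
  rcases h1 with h1 | h1
  · refine ⟨x, y, u, by linarith, by linarith [D_nn 𝔊 U x y], ?_⟩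
    have := D_tri 𝔊 U x y u
    linarith
  · refine ⟨x, y, w, by linarith, by linarith [D_nn 𝔊 U x y], ?_⟩
    have := D_tri 𝔊 U x y w
    linarith

theorem act_inv_act (g : G) (U : 𝔊.H.Dom) : 𝔊.act g⁻¹ (𝔊.act g U) = U := by
  rw [← 𝔊.act_mul, inv_mul_cancel, 𝔊.act_one]

theorem act_inj (g : G) {U V : 𝔊.H.Dom} (h : 𝔊.act g U = 𝔊.act g V) : U = V := by
  rw [← act_inv_act 𝔊 g U, h, act_inv_act]

theorem act_zpow_nest (g : G) {V : 𝔊.H.Dom} (h : 𝔊.H.nest V (𝔊.act g V)) (k : ℕ) :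
    𝔊.H.nest V (𝔊.act (g ^ k) V) := by
  induction k with
  | zero => rw [pow_zero, 𝔊.act_one]; exact 𝔊.ax.nest_refl V
  | succ k ih =>
    refine 𝔊.ax.nest_trans _ _ _ ih ?_
    rw [pow_succ, 𝔊.act_mul, 𝔊.act_nest]
    exact h

/-- finite complexity: a domain nested in its translate is equal to it -/
theorem act_eq_of_nest (g : G) {V : 𝔊.H.Dom} (h : 𝔊.H.nest V (𝔊.act g V)) : 𝔊.act g V = V := by
  classical
  by_contra hne
  obtain ⟨n, hn⟩ := 𝔊.ax.complexity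
  have hle : ∀ i j : ℕ, i ≤ j → 𝔊.H.nest (𝔊.act (g ^ i) V) (𝔊.act (g ^ j) V) := by
    intro i j hij
    obtain ⟨k, rfl⟩ := Nat.exists_eq_add_of_le hij
    rw [pow_add, 𝔊.act_mul, 𝔊.act_nest]
    exact act_zpow_nest 𝔊 g h k
  have hinj : Function.Injective fun i : ℕ => 𝔊.act (g ^ i) V := by
    have key : ∀ i j : ℕ, i < j → 𝔊.act (g ^ i) V ≠ 𝔊.act (g ^ j) V := by
      intro i j hij heq
      obtain ⟨k, rfl⟩ := Nat.exists_eq_add_of_lt hij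
      rw [add_assoc, pow_add, 𝔊.act_mul] at heq
      have h1 := act_inj 𝔊 _ heq
      -- V ⊑ gV ⊑ g^(k+1) V = V
      have h2 : 𝔊.H.nest (𝔊.act g V) (𝔊.act (g ^ (k + 1)) V) := by
        have := hle 1 (k + 1) (by omega)
        rwa [pow_one] at this
      rw [← h1] at h2
      exact hne (𝔊.ax.nest_antisymm _ _ h2 h)
    intro i j hij
    rcases lt_trichotomy i j with h1 | h1 | h1
    · exact absurd hij (key i j h1)
    · exact h1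
    · exact absurd hij.symm (key j i h1)
  have h1 := hn ((Finset.range (n + 1)).image fun i : ℕ => 𝔊.act (g ^ i) V) (by
    intro U hU W hW
    obtain ⟨i, -, rfl⟩ := Finset.mem_image.1 hU
    obtain ⟨j, -, rfl⟩ := Finset.mem_image.1 hW
    rcases le_total i j with h2 | h2
    · exact Or.inl (hle i j h2)
    · exact Or.inr (hle j i h2))
  rw [Finset.card_image_of_injective _ hinj, Finset.card_range] at h1
  omega

/-- Elements with bounded displacement (such as elements with finite conjugacy class) fix the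
domains with unbounded projections. -/
theorem act_eq_of_unb (a : G) (c : ℝ) (ha : ∀ y : G, wd S y (a * y) ≤ c) {V : 𝔊.H.Dom}
    (hV : Unb 𝔊 V) : 𝔊.act a V = V := by
  by_contra hne
  have hK := K_pos 𝔊
  -- the coordinates in `V` and `a V` are comparable
  have hcomp : ∀ x y : G, D 𝔊 V x y ≤ D 𝔊 (𝔊.act a V) x y + 4 * 𝔊.K + 2 * (𝔊.K * c + 𝔊.K) := by
    intro x y
    have h1 := D_le_act 𝔊 a V (a⁻¹ * x) (a⁻¹ * y)
    rw [mul_inv_cancel_left, mul_inv_cancel_left] at h1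
    have h2 : ∀ x : G, D 𝔊 V (a⁻¹ * x) x ≤ 𝔊.K * c + 𝔊.K := by
      intro x
      have h3 := D_le 𝔊 V (a⁻¹ * x) x
      have h4 := ha (a⁻¹ * x)
      rw [mul_inv_cancel_left] at h4
      have h5 : 𝔊.K * wd S (a⁻¹ * x) x ≤ 𝔊.K * c := mul_le_mul_of_nonneg_left h4 (by linarith)
      linarith
    have h3 := D_tri 𝔊 V x (a⁻¹ * x) y
    have h4 := D_tri 𝔊 V (a⁻¹ * x) (a⁻¹ * y) y
    rw [D_comm 𝔊 V x (a⁻¹ * x)] at h3
    linarith [h2 x, h2 y]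
  have hn1 : ¬ 𝔊.H.nest V (𝔊.act a V) := fun h => hne (act_eq_of_nest 𝔊 a h)
  have hn2 : ¬ 𝔊.H.nest (𝔊.act a V) V := by
    intro h
    have h1 : 𝔊.H.nest V (𝔊.act a⁻¹ V) := by
      rw [← 𝔊.act_nest a, ← 𝔊.act_mul, mul_inv_cancel, 𝔊.act_one]
      exact h
    have h2 := act_eq_of_nest 𝔊 a⁻¹ h1
    apply hne
    conv_lhs => rw [← h2, ← 𝔊.act_mul, mul_inv_cancel, 𝔊.act_one]
  by_cases ho : 𝔊.H.orth V (𝔊.act a V)
  · -- orthogonal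
    classical
    obtain ⟨x₁, x₂, h12⟩ := hV (4 * 𝔊.K + 2 * (𝔊.K * c + 𝔊.K) + 6 * 𝔊.K)
    obtain ⟨x, hx⟩ := 𝔊.ax.realization {V, 𝔊.act a V} (by
      intro U hU W hW hUW
      rcases hU with rfl | hU <;> rcases hW with rfl | hW
      · exact absurd rfl hUW
      · rw [Set.mem_singleton_iff] at hW
        rw [hW]
        exact ho
      · rw [Set.mem_singleton_iff] at hU
        rw [hU]
        exact 𝔊.ax.orth_symm _ _ ho
      · rw [Set.mem_singleton_iff] at hU hW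
        exact absurd (hU.trans hW.symm) hUW)
      (fun U => if U = V then cc 𝔊 U x₁ else cc 𝔊 U x₂) (by
        intro U _
        split_ifs
        · exact ⟨x₁, trivial, cc_mem 𝔊 U x₁⟩
        · exact ⟨x₂, trivial, cc_mem 𝔊 U x₂⟩)
    have h1 := (hx V (by simp)).1
    have h2 := (hx (𝔊.act a V) (by simp)).1
    rw [if_pos rfl] at h1
    rw [if_neg hne] at h2
    have e1 : D 𝔊 V x x₁ ≤ 2 * 𝔊.K + 1 := by
      obtain ⟨p, hp, q, hq, h3⟩ := exists_of_sd (𝔊.ax.π_ne V x) (Set.singleton_nonempty _) h1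
      rw [Set.mem_singleton_iff] at hq
      subst hq
      have h4 := 𝔊.ax.π_diam V x _ (cc_mem 𝔊 V x) p hp
      unfold D
      linarith [dist_triangle (cc 𝔊 V x) p (cc 𝔊 V x₁)]
    have e2 : D 𝔊 (𝔊.act a V) x x₂ ≤ 2 * 𝔊.K + 1 := by
      obtain ⟨p, hp, q, hq, h3⟩ := exists_of_sd (𝔊.ax.π_ne _ x) (Set.singleton_nonempty _) h2
      rw [Set.mem_singleton_iff] at hq
      subst hq
      have h4 := 𝔊.ax.π_diam _ x _ (cc_mem 𝔊 _ x) p hp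
      unfold D
      linarith [dist_triangle (cc 𝔊 (𝔊.act a V) x) p (cc 𝔊 (𝔊.act a V) x₂)]
    have e3 := hcomp x x₂
    have e4 := D_tri 𝔊 V x₁ x x₂
    rw [D_comm 𝔊 V x₁ x] at e4
    linarith
  · -- transverse
    have ht : 𝔊.H.trans V (𝔊.act a V) := ⟨ho, hn1, hn2⟩
    have ht' : 𝔊.H.trans (𝔊.act a V) V :=
      ⟨fun h => ho (𝔊.ax.orth_symm _ _ h), hn2, hn1⟩
    obtain ⟨r, hr⟩ := 𝔊.ax.ρ_ne V (𝔊.act a V) (Or.inr ht)
    obtain ⟨q, hq⟩ := 𝔊.ax.ρ_ne (𝔊.act a V) V (Or.inr ht')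
    have hdich : ∀ x : G, dist (cc 𝔊 (𝔊.act a V) x) r ≤ 4 * 𝔊.K ∨
        dist (cc 𝔊 V x) q ≤ 4 * 𝔊.K := by
      intro x
      rcases 𝔊.ax.cons_trans V (𝔊.act a V) ht x with h | h
      · exact Or.inl (cc_near 𝔊 (𝔊.ax.ρ_diam _ _ (Or.inr ht)) hr h)
      · exact Or.inr (cc_near 𝔊 (𝔊.ax.ρ_diam _ _ (Or.inr ht')) hq h)
    have hA : ∀ x y : G, dist (cc 𝔊 (𝔊.act a V) x) r ≤ 4 * 𝔊.K →
        dist (cc 𝔊 (𝔊.act a V) y) r ≤ 4 * 𝔊.K →
        D 𝔊 V x y ≤ 8 * 𝔊.K + 4 * 𝔊.K + 2 * (𝔊.K * c + 𝔊.K) := by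
      intro x y h1 h2
      have h3 := hcomp x y
      have h4 := dist_triangle_right (cc 𝔊 (𝔊.act a V) x) (cc 𝔊 (𝔊.act a V) y) r
      have h5 : D 𝔊 (𝔊.act a V) x y ≤ 8 * 𝔊.K := by
        unfold D
        linarith
      linarith
    have hc0 : 0 ≤ c := by
      have := ha 1
      have h2 : 0 ≤ wd S 1 (a * 1) := Nat.cast_nonneg _
      linarith
    have hB : ∀ x y : G, dist (cc 𝔊 V x) q ≤ 4 * 𝔊.K → dist (cc 𝔊 V y) q ≤ 4 * 𝔊.K →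
        D 𝔊 V x y ≤ 8 * 𝔊.K + 4 * 𝔊.K + 2 * (𝔊.K * c + 𝔊.K) := by
      intro x y h1 h2
      have h4 := dist_triangle_right (cc 𝔊 V x) (cc 𝔊 V y) q
      have h5 : D 𝔊 V x y ≤ 8 * 𝔊.K := by
        unfold D
        linarith
      have h6 : 0 ≤ 𝔊.K * c := mul_nonneg (by linarith) hc0
      linarith
    obtain ⟨x, y, w, h1, h2, h3⟩ := hV.three 𝔊 (8 * 𝔊.K + 4 * 𝔊.K + 2 * (𝔊.K * c + 𝔊.K))
    rcases hdich x with hx | hx <;> rcases hdich y with hy | hy <;> rcases hdich w with hw | hw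
    · linarith [hA x y hx hy]
    · linarith [hA x y hx hy]
    · linarith [hA x w hx hw]
    · linarith [hB y w hy hw]
    · linarith [hA y w hy hw]
    · linarith [hB x w hx hw]
    · linarith [hB x y hx hy]
    · linarith [hB x y hx hy]

end

end Pool.Agent.W389.CT
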