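import Pool.Agent.W389.CT.Gr
import Pool.Agent.W389.CT.Abs
import Pool.Agent.W389.CT.HGeo

set_option autoImplicit false

/-! In every hierarchically hyperbolic structure on `ℤ wr ℤ/3` the diagonal is coarsely dense in
all coordinates, so it is not hierarchically quasiconvex. -/

namespace Pool.Agent.W389.CT

open Pool.Agent.Helper548.HB Gr

section

variable {S : Finset Gr} (𝔊 : HHGs Gr S)

theorem wd_nn (S : Finset Gr) (x y : Gr) : 0 ≤ wd S x y := Nat.cast_nonneg _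

theorem disp (S : Finset Gr) (u : E3) : ∃ c : ℝ, ∀ y : Gr, wd S y (tr u * y) ≤ c := by
  refine ⟨∑ k : ZMod 3, (wlen S (tr (sh k u)) : ℝ), fun y => ?_⟩
  unfold wd
  rw [inv_mul_tr_mul]
  exact Finset.single_le_sum (f := fun k : ZMod 3 => (wlen S (tr (sh k u)) : ℝ))
    (fun i _ => Nat.cast_nonneg _) (Finset.mem_univ _)

theorem act_tr {V : 𝔊.H.Dom} (hV : Unb 𝔊 V) (u : E3) : 𝔊.act (tr u) V = V := by
  obtain ⟨c, hc⟩ := disp S u
  exact act_eq_of_unb 𝔊 (tr u) c hc hV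

theorem D_tr_le {V : 𝔊.H.Dom} (hV : Unb 𝔊 V) (u : E3) (x y : Gr) :
    D 𝔊 V (tr u * x) (tr u * y) ≤ D 𝔊 V x y + 4 * 𝔊.K := by
  have := D_act_le 𝔊 (tr u) V x y
  rwa [act_tr 𝔊 hV] at this

theorem D_le_tr {V : 𝔊.H.Dom} (hV : Unb 𝔊 V) (u : E3) (x y : Gr) :
    D 𝔊 V x y ≤ D 𝔊 V (tr u * x) (tr u * y) + 4 * 𝔊.K := by
  have := D_le_act 𝔊 (tr u) V x y
  rwa [act_tr 𝔊 hV] at this

/-- a constant for the rotations -/
noncomputable def LL : ℝ := 𝔊.K * (∑ k : ZMod 3, (wlen S (rot k) : ℝ)) + 𝔊.K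

theorem LL_ge : 𝔊.K ≤ LL 𝔊 := by
  have hK := K_pos 𝔊
  have : 0 ≤ 𝔊.K * (∑ k : ZMod 3, (wlen S (rot k) : ℝ)) :=
    mul_nonneg (by linarith) (Finset.sum_nonneg fun i _ => Nat.cast_nonneg _)
  unfold LL
  linarith

/-- every point is close to a translation -/
theorem D_rot (U : 𝔊.H.Dom) (x : Gr) (k : ZMod 3) : D 𝔊 U x (x * rot k) ≤ LL 𝔊 := by
  have h1 := D_le 𝔊 U x (x * rot k)
  have h2 : wd S x (x * rot k) ≤ ∑ k : ZMod 3, (wlen S (rot k) : ℝ) := by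
    unfold wd
    rw [inv_mul_cancel_left]
    exact Finset.single_le_sum (f := fun k : ZMod 3 => (wlen S (rot k) : ℝ))
      (fun i _ => Nat.cast_nonneg _) (Finset.mem_univ _)
  have h3 := mul_le_mul_of_nonneg_left h2 (by linarith [K_pos 𝔊] : (0:ℝ) ≤ 𝔊.K)
  unfold LL
  linarith

theorem D_near (U : 𝔊.H.Dom) (x : Gr) : D 𝔊 U (tr x.v) x ≤ LL 𝔊 := by
  conv_lhs => rw [eq_tr_rot x]
  have : (tr x.v * rot x.j).v = x.v := by rw [← eq_tr_rot]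
  rw [this]
  exact D_rot 𝔊 U _ _

/-- distinct unbounded domains are orthogonal -/
theorem orth_of_unb {V W : 𝔊.H.Dom} (hV : Unb 𝔊 V) (hW : Unb 𝔊 W) (hne : V ≠ W) :
    𝔊.H.orth V W := by
  have key : ∀ V W : 𝔊.H.Dom, Unb 𝔊 V → Unb 𝔊 W → ¬ (𝔊.H.pnest V W ∨ 𝔊.H.trans V W) := by
    intro V W hV hW h
    obtain ⟨r, hr⟩ := 𝔊.ax.ρ_ne V W h
    have hdiam := 𝔊.ax.ρ_diam V W h
    have h1 : ∀ u : E3, dist (cc 𝔊 W (tr u)) r ≤ 4 * 𝔊.K + dist (cc 𝔊 W 1) r := by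
      intro u
      have h2 : ∃ q ∈ 𝔊.H.ρ (𝔊.act (tr u) V) (𝔊.act (tr u) W),
          dist (cc 𝔊 (𝔊.act (tr u) W) (tr u)) q ≤ 3 * 𝔊.K + dist (cc 𝔊 W 1) r := by
        obtain ⟨q, hq, hq'⟩ := 𝔊.iso_ρ (tr u) V W h r hr
        refine ⟨q, hq, ?_⟩
        have h3 := iso_cc 𝔊 (tr u) W 1
        rw [mul_one] at h3
        have h4 := 𝔊.iso_isom (tr u) W (cc 𝔊 W 1) r
        have h5 := dist_triangle4 (cc 𝔊 (𝔊.act (tr u) W) (tr u)) (𝔊.iso (tr u) W (cc 𝔊 W 1))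
          (𝔊.iso (tr u) W r) q
        rw [dist_comm (cc 𝔊 (𝔊.act (tr u) W) (tr u)) (𝔊.iso (tr u) W (cc 𝔊 W 1))] at h5
        linarith
      rw [act_tr 𝔊 hV, act_tr 𝔊 hW] at h2
      obtain ⟨q, hq, h3⟩ := h2
      have h4 := hdiam q hq r hr
      linarith [dist_triangle (cc 𝔊 W (tr u)) q r]
    obtain ⟨x, y, hxy⟩ := hW (2 * (4 * 𝔊.K + dist (cc 𝔊 W 1) r) + 2 * LL 𝔊)
    have h2 := D_tri 𝔊 W x (tr x.v) y
    have h3 := D_tri 𝔊 W (tr x.v) (tr y.v) y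
    have h4 : D 𝔊 W (tr x.v) (tr y.v) ≤ 2 * (4 * 𝔊.K + dist (cc 𝔊 W 1) r) := by
      unfold D
      linarith [dist_triangle_right (cc 𝔊 W (tr x.v)) (cc 𝔊 W (tr y.v)) r, h1 x.v, h1 y.v]
    rw [D_comm 𝔊 W x (tr x.v)] at h2
    linarith [D_near 𝔊 W x, D_near 𝔊 W y]
  by_contra ho
  by_cases h1 : 𝔊.H.nest V W
  · exact key V W hV hW (Or.inl ⟨h1, hne⟩)
  by_cases h2 : 𝔊.H.nest W V
  · exact key W V hW hV (Or.inl ⟨h2, hne.symm⟩)
  exact key V W hV hW (Or.inr ⟨ho, h1, h2⟩)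

/-- the coarse seminorm of an unbounded domain -/
noncomputable def N (V : 𝔊.H.Dom) (u : E3) : ℝ := D 𝔊 V 1 (tr u)

theorem N_sub_le {V : 𝔊.H.Dom} (hV : Unb 𝔊 V) (x y : E3) :
    N 𝔊 V (x - y) ≤ D 𝔊 V (tr x) (tr y) + 4 * 𝔊.K := by
  have h1 := D_le_tr 𝔊 hV y (tr (x - y)) 1
  rw [← tr_add, mul_one, add_sub_cancel, D_comm 𝔊 V (tr (x - y)) 1] at h1
  exact h1

theorem le_N_sub {V : 𝔊.H.Dom} (hV : Unb 𝔊 V) (x y : E3) :
    D 𝔊 V (tr x) (tr y) ≤ N 𝔊 V (x - y) + 4 * 𝔊.K := by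
  have h1 := D_tr_le 𝔊 hV y (tr (x - y)) 1
  rw [← tr_add, mul_one, add_sub_cancel, D_comm 𝔊 V (tr (x - y)) 1] at h1
  exact h1

theorem N_pn {V : 𝔊.H.Dom} (hV : Unb 𝔊 V) : PN (N 𝔊 V) (18 * 𝔊.K + 2 * LL 𝔊) := by
  have hK := K_pos 𝔊
  have hL := LL_ge 𝔊
  have hfour := four_of_hyp (𝔊.ax.hyp V)
  refine ⟨fun u => D_nn 𝔊 V _ _, fun u => ?_, fun u w => ?_, fun x y z w => ?_, fun a => ?_⟩
  · have h1 := D_tr_le 𝔊 hV (-u) (tr u) 1
    rw [← tr_add, neg_add_cancel, mul_one, tr_zero, D_comm 𝔊 V (tr u) 1] at h1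
    show D 𝔊 V 1 (tr (-u)) ≤ D 𝔊 V 1 (tr u) + _
    linarith
  · show D 𝔊 V 1 (tr (u + w)) ≤ D 𝔊 V 1 (tr u) + D 𝔊 V 1 (tr w) + _
    have h1 := D_tr_le 𝔊 hV u 1 (tr w)
    rw [← tr_add, mul_one] at h1
    linarith [D_tri 𝔊 V 1 (tr u) (tr (u + w))]
  · have h1 := hfour (cc 𝔊 V (tr x)) (cc 𝔊 V (tr y)) (cc 𝔊 V (tr z)) (cc 𝔊 V (tr w))
    have h2 := N_sub_le 𝔊 hV x y
    have h3 := N_sub_le 𝔊 hV z w
    have h4 := le_N_sub 𝔊 hV x z
    have h5 := le_N_sub 𝔊 hV y w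
    have h6 := le_N_sub 𝔊 hV x w
    have h7 := le_N_sub 𝔊 hV y z
    unfold D at h2 h3 h4 h5 h6 h7
    have h8 := le_max_left (N 𝔊 V (x - z) + N 𝔊 V (y - w)) (N 𝔊 V (x - w) + N 𝔊 V (y - z))
    have h9 := le_max_right (N 𝔊 V (x - z) + N 𝔊 V (y - w)) (N 𝔊 V (x - w) + N 𝔊 V (y - z))
    rcases max_cases (dist (cc 𝔊 V (tr x)) (cc 𝔊 V (tr z)) +
        dist (cc 𝔊 V (tr y)) (cc 𝔊 V (tr w)))
      (dist (cc 𝔊 V (tr x)) (cc 𝔊 V (tr w)) + dist (cc 𝔊 V (tr y)) (cc 𝔊 V (tr z))) with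
      ⟨h10, -⟩ | ⟨h10, -⟩ <;> rw [h10] at h1 <;> linarith
  · -- midpoints
    obtain ⟨γ, h0, h1, hγ⟩ := 𝔊.ax.geod V (cc 𝔊 V 1) (cc 𝔊 V (tr a))
    set l := dist (cc 𝔊 V 1) (cc 𝔊 V (tr a)) with hl
    have hl0 : 0 ≤ l := dist_nonneg
    have hNa : N 𝔊 V a = l := rfl
    obtain ⟨p, ⟨x, -, hp⟩, hpm⟩ := 𝔊.ax.π_qc V γ l ⟨hl0, hγ⟩ (by
      rw [h0]; exact ⟨1, trivial, cc_mem 𝔊 V 1⟩) (by
      rw [h1]; exact ⟨tr a, trivial, cc_mem 𝔊 V _⟩) (l / 2) ⟨by linarith, by linarith⟩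
    have h2 := 𝔊.ax.π_diam V x p hp _ (cc_mem 𝔊 V x)
    have h3 := D_near 𝔊 V x
    have h4 : dist (γ (l / 2)) (cc 𝔊 V (tr x.v)) ≤ 2 * 𝔊.K + LL 𝔊 := by
      have := dist_triangle4 (γ (l / 2)) p (cc 𝔊 V x) (cc 𝔊 V (tr x.v))
      unfold D at h3
      rw [dist_comm (cc 𝔊 V x)] at this
      linarith
    have h5 : dist (cc 𝔊 V 1) (γ (l / 2)) = l / 2 := by
      rw [← h0, hγ 0 ⟨le_rfl, hl0⟩ (l / 2) ⟨by linarith, by linarith⟩, zero_sub, abs_neg,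
        abs_of_nonneg (by linarith)]
    have h6 : dist (γ (l / 2)) (cc 𝔊 V (tr a)) = l / 2 := by
      rw [← h1, hγ (l / 2) ⟨by linarith, by linarith⟩ l ⟨hl0, le_rfl⟩, abs_of_nonpos (by linarith)]
      linarith
    refine ⟨x.v, ?_, ?_⟩
    · show |D 𝔊 V 1 (tr x.v) - l / 2| ≤ _
      unfold D
      have h7 := dist_triangle (cc 𝔊 V 1) (γ (l / 2)) (cc 𝔊 V (tr x.v))
      have h8 := dist_triangle_right (cc 𝔊 V 1) (γ (l / 2)) (cc 𝔊 V (tr x.v))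
      rw [abs_le]
      constructor <;> linarith
    · have h7 := N_sub_le 𝔊 hV a x.v
      have h8 := le_N_sub 𝔊 hV a x.v
      unfold D at h7 h8
      have h9 := dist_triangle (cc 𝔊 V (tr a)) (γ (l / 2)) (cc 𝔊 V (tr x.v))
      have h10 := dist_triangle_right (γ (l / 2)) (cc 𝔊 V (tr a)) (cc 𝔊 V (tr x.v))
      rw [dist_comm (cc 𝔊 V (tr a)) (γ (l / 2))] at h9
      rw [hNa, abs_le]
      constructor <;> linarith

theorem N_zero (V : 𝔊.H.Dom) : N 𝔊 V 0 = 0 := D_self 𝔊 V 1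

/-- an unbounded domain has unbounded seminorm -/
theorem N_unb {V : 𝔊.H.Dom} (hV : Unb 𝔊 V) (R : ℝ) : ∃ u : E3, R < N 𝔊 V u := by
  by_contra hcon
  push Not at hcon
  obtain ⟨x, y, hxy⟩ := hV (2 * R + 2 * LL 𝔊)
  have h1 := hcon x.v
  have h2 := hcon y.v
  have h3 := D_tri 𝔊 V x (tr x.v) y
  have h4 := D_tri 𝔊 V (tr x.v) 1 y
  have h5 := D_tri 𝔊 V 1 (tr y.v) y
  rw [D_comm 𝔊 V x (tr x.v)] at h3
  rw [D_comm 𝔊 V (tr x.v) 1] at h4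
  unfold N at h1 h2
  linarith [D_near 𝔊 V x, D_near 𝔊 V y]

/-- the diagonal is unbounded in every unbounded domain -/
theorem z_unb {V : 𝔊.H.Dom} (hV : Unb 𝔊 V) (B : ℝ) :
    ∃ n : ℕ, B < N 𝔊 V (n • one3) := by
  by_contra hcon
  push Not at hcon
  have hK := K_pos 𝔊
  have hL := LL_ge 𝔊
  have hP := N_pn 𝔊 hV
  set c := 18 * 𝔊.K + 2 * LL 𝔊 with hc
  have hcc : 0 ≤ c := hP.c_nn
  -- bounded on all multiples
  have hB : ∀ n : ℤ, N 𝔊 V (n • one3) ≤ B + c := by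
    intro n
    obtain ⟨m, rfl | rfl⟩ := n.eq_nat_or_neg
    · rw [natCast_zsmul]; linarith [hcon m]
    · rw [neg_smul, natCast_zsmul]; linarith [hcon m, hP.neg (m • one3)]
  by_cases ht : 𝔊.act (rot 1) V = V
  · -- the rotation fixes `V`
    have hsh : ∀ k : ZMod 3, 𝔊.act (rot k) V = V := by
      intro k
      have h2 : 𝔊.act (rot 2) V = V := by
        have : rot 2 = rot 1 * rot 1 := by rw [← rot_add]; rfl
        rw [this, 𝔊.act_mul, ht, ht]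
      fin_cases k
      · show 𝔊.act (rot 0) V = V
        rw [rot_zero, 𝔊.act_one]
      · exact ht
      · exact h2
    -- shifts change the seminorm by a bounded amount
    have hN : ∀ (k : ZMod 3) (u : E3), N 𝔊 V (sh k u) ≤ N 𝔊 V u + 4 * 𝔊.K + 2 * LL 𝔊 := by
      intro k u
      have h1 := D_act_le 𝔊 (rot k) V 1 (tr u)
      rw [hsh k, mul_one, rot_tr] at h1
      have h2 := D_rot 𝔊 V 1 k
      rw [one_mul] at h2
      have h4 := D_rot 𝔊 V (tr (sh k u)) k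
      have h5 := D_tri 𝔊 V 1 (rot k) (tr (sh k u))
      have h6 := D_tri 𝔊 V (rot k) (tr (sh k u) * rot k) (tr (sh k u))
      rw [D_comm 𝔊 V (tr (sh k u) * rot k) (tr (sh k u))] at h6
      show D 𝔊 V 1 (tr (sh k u)) ≤ D 𝔊 V 1 (tr u) + _ + _
      linarith
    have hss : ∀ (k l : ZMod 3) (u : E3), sh k (sh l u) = sh (k + l) u := by
      intro k l u
      funext i
      show u (i - k - l) = u (i - (k + l))
      rw [sub_sub]
    have hs0 : ∀ u : E3, sh 0 u = u := by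
      intro u; funext i; show u (i - 0) = u i; rw [sub_zero]
    have hN' : ∀ (k : ZMod 3) (u : E3), N 𝔊 V u ≤ N 𝔊 V (sh k u) + 4 * 𝔊.K + 2 * LL 𝔊 := by
      intro k u
      have := hN (-k) (sh k u)
      rwa [hss, neg_add_cancel, hs0] at this
    obtain ⟨u, hu⟩ := N_unb 𝔊 hV (B + 100 * c + 2 * (4 * 𝔊.K + 2 * LL 𝔊))
    have h1 := sh_sum' u
    have e1 : u + sh 1 u = (u 0 + u 1 + u 2) • one3 + -(sh 2 u) := by
      rw [← h1]; abel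
    have e2 : -(sh 2 u) = u + sh 1 u + (-(u 0 + u 1 + u 2)) • one3 := by
      rw [neg_smul, ← h1]; abel
    have a1 : N 𝔊 V (u + sh 1 u) ≤ N 𝔊 V u + B + 3 * c + (4 * 𝔊.K + 2 * LL 𝔊) := by
      rw [e1]
      linarith [hP.add ((u 0 + u 1 + u 2) • one3) (-(sh 2 u)), hB (u 0 + u 1 + u 2),
        hP.neg (sh 2 u), hN 2 u]
    have a2 : N 𝔊 V u ≤ N 𝔊 V (u + sh 1 u) + B + 3 * c + (4 * 𝔊.K + 2 * LL 𝔊) := by
      have h2 := hP.add (u + sh 1 u) ((-(u 0 + u 1 + u 2)) • one3)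
      rw [← e2] at h2
      have h4 := hP.neg (-(sh 2 u))
      rw [neg_neg] at h4
      linarith [hB (-(u 0 + u 1 + u 2)), hN' 2 u]
    have h4 := hP.max_ge u (sh 1 u)
    have h5 := hP.p1 u (sh 1 u)
    have h6 := hN 1 u
    have h7 := hN' 1 u
    have h8 : max (N 𝔊 V u) (N 𝔊 V (sh 1 u)) ≤ N 𝔊 V u + (4 * 𝔊.K + 2 * LL 𝔊) :=
      max_le (by linarith) (by linarith)
    rcases max_cases (N 𝔊 V (u + sh 1 u)) (N 𝔊 V (u - sh 1 u)) with ⟨h9, -⟩ | ⟨h9, -⟩ <;>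
      rw [h9] at h4 <;> linarith
  · -- the rotation moves `V`
    classical
    have hV1 := hV.act 𝔊 (rot 1)
    have hV2 := hV.act 𝔊 (rot 2)
    have e12 : 𝔊.act (rot 1) (𝔊.act (rot 1) V) = 𝔊.act (rot 2) V := by
      rw [← 𝔊.act_mul, ← rot_add]; rfl
    have e21 : 𝔊.act (rot 1) (𝔊.act (rot 2) V) = V := by
      rw [← 𝔊.act_mul, ← rot_add]
      have : (1 + 2 : ZMod 3) = 0 := by decide
      rw [this, rot_zero, 𝔊.act_one]
    have n01 : V ≠ 𝔊.act (rot 1) V := fun h => ht h.symm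
    have n12 : 𝔊.act (rot 1) V ≠ 𝔊.act (rot 2) V := by
      intro h
      rw [← e12] at h
      exact n01 (act_inj 𝔊 _ h)
    have n20 : 𝔊.act (rot 2) V ≠ V := by
      intro h
      apply n01
      rw [h] at e21
      exact e21.symm
    have o01 := orth_of_unb 𝔊 hV hV1 n01
    have o12 := orth_of_unb 𝔊 hV1 hV2 n12
    have o20 := orth_of_unb 𝔊 hV2 hV n20
    obtain ⟨u₀, hu₀⟩ := N_unb 𝔊 hV (B + 20 * c + 30 * (𝔊.K + LL 𝔊))
    obtain ⟨x, hx⟩ := 𝔊.ax.realization {V, 𝔊.act (rot 1) V, 𝔊.act (rot 2) V} (by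
      intro U hU W hW hUW
      simp only [Set.mem_insert_iff, Set.mem_singleton_iff] at hU hW
      rcases hU with hU | hU | hU <;> rcases hW with hW | hW | hW <;> rw [hU, hW] <;>
        first
        | exact absurd (hU.trans hW.symm) hUW
        | exact o01
        | exact o12
        | exact o20
        | exact 𝔊.ax.orth_symm _ _ o01
        | exact 𝔊.ax.orth_symm _ _ o12
        | exact 𝔊.ax.orth_symm _ _ o20)
      (fun U => if U = V then cc 𝔊 U (tr u₀) else cc 𝔊 U 1) (by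
        intro U _
        split_ifs
        · exact ⟨_, trivial, cc_mem 𝔊 U _⟩
        · exact ⟨_, trivial, cc_mem 𝔊 U _⟩)
    have hreal : ∀ (U : 𝔊.H.Dom) (y : Gr), sd (𝔊.H.π U x) {cc 𝔊 U y} ≤ 𝔊.K →
        D 𝔊 U x y ≤ 2 * 𝔊.K + 1 := by
      intro U y h1
      obtain ⟨p, hp, q, hq, h3⟩ := exists_of_sd (𝔊.ax.π_ne U x) (Set.singleton_nonempty _) h1
      rw [Set.mem_singleton_iff] at hq
      subst hq
      have h4 := 𝔊.ax.π_diam U x _ (cc_mem 𝔊 U x) p hp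
      unfold D
      linarith [dist_triangle (cc 𝔊 U x) p (cc 𝔊 U y)]
    have r0 := (hx V (by simp)).1
    have r1 := (hx (𝔊.act (rot 1) V) (by simp)).1
    have r2 := (hx (𝔊.act (rot 2) V) (by simp)).1
    rw [if_pos rfl] at r0
    rw [if_neg n01.symm] at r1
    rw [if_neg n20] at r2
    have s0 := hreal _ _ r0
    have s1 := hreal _ _ r1
    have s2 := hreal _ _ r2
    set b := x.v with hb
    -- the seminorm of `b` is large
    have t0 : N 𝔊 V u₀ - (2 * 𝔊.K + 1) - LL 𝔊 ≤ N 𝔊 V b := by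
      have h1 := D_tri 𝔊 V 1 (tr b) (tr u₀)
      have h2 := D_tri 𝔊 V (tr b) x (tr u₀)
      have h3 := D_near 𝔊 V x
      show D 𝔊 V 1 (tr u₀) - _ - _ ≤ D 𝔊 V 1 (tr b)
      linarith
    -- the seminorms of the shifts are small
    have hsm : ∀ k l : ZMod 3, l + k = 0 → D 𝔊 (𝔊.act (rot k) V) x 1 ≤ 2 * 𝔊.K + 1 →
        N 𝔊 V (sh l b) ≤ 6 * 𝔊.K + 1 + 3 * LL 𝔊 := by
      intro k l hkl h1
      have h2 := D_near 𝔊 (𝔊.act (rot k) V) x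
      have h3 := D_tri 𝔊 (𝔊.act (rot k) V) (tr b) x 1
      have h4 := D_le_act 𝔊 (rot k) V (rot l * tr b) (rot l)
      have e1 : rot k * rot l = 1 := by rw [← rot_add, add_comm, hkl, rot_zero]
      rw [← mul_assoc, e1, one_mul, rot_tr] at h4
      have h5 := D_rot 𝔊 V 1 l
      rw [one_mul] at h5
      have h6 := D_rot 𝔊 V (tr (sh l b)) l
      have h7 := D_tri 𝔊 V 1 (rot l) (tr (sh l b))
      have h8 := D_tri 𝔊 V (rot l) (tr (sh l b) * rot l) (tr (sh l b))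
      rw [D_comm 𝔊 V (tr (sh l b) * rot l) (tr (sh l b)),
        D_comm 𝔊 V (rot l) (tr (sh l b) * rot l)] at h8
      show D 𝔊 V 1 (tr (sh l b)) ≤ _
      linarith
    have t1 := hsm 1 (-1) (by decide) s1
    have t2 := hsm 2 (-2) (by decide) s2
    have h1 := sh_sum b
    have e1 : b = (b 0 + b 1 + b 2) • one3 + (-(sh (-1) b) + -(sh (-2) b)) := by
      rw [← h1]; abel
    have h2 := hP.add ((b 0 + b 1 + b 2) • one3) (-(sh (-1) b) + -(sh (-2) b))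
    rw [← e1] at h2
    linarith [hP.add (-(sh (-1) b)) (-(sh (-2) b)), hP.neg (sh (-1) b), hP.neg (sh (-2) b),
      hB (b 0 + b 1 + b 2)]

/-- in every domain, every point is close to the orbit under the diagonal of any other point -/
theorem dense_dom (V : 𝔊.H.Dom) : ∃ κ : ℝ, 0 ≤ κ ∧ ∀ x w : Gr, ∃ n : ℤ, D 𝔊 V x (z ^ n * w) ≤ κ := by
  have hK := K_pos 𝔊
  have hL := LL_ge 𝔊
  by_cases hV : Unb 𝔊 V
  · have hP := N_pn 𝔊 hV
    set c := 18 * 𝔊.K + 2 * LL 𝔊 with hc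
    have hcc : 0 ≤ c := hP.c_nn
    have hN1 : 0 ≤ N 𝔊 V one3 := hP.nn _
    refine ⟨N 𝔊 V one3 + 60 * c + 4 * 𝔊.K + 2 * LL 𝔊, by linarith, fun x w => ?_⟩
    obtain ⟨n, hn⟩ := hP.cobounded one3 (by rw [N_zero]; exact hcc)
      (fun B => z_unb 𝔊 hV B) (x.v - w.v)
    refine ⟨n, ?_⟩
    have h1 := le_N_sub 𝔊 hV x.v (n • one3 + w.v)
    have e1 : x.v - (n • one3 + w.v) = x.v - w.v - n • one3 := by abel
    rw [e1] at h1
    have e2 : z ^ n * w = tr (n • one3 + w.v) * rot w.j := by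
      rw [z_zpow, tr_add, mul_assoc, ← eq_tr_rot]
    rw [e2]
    have h2 := D_rot 𝔊 V (tr (n • one3 + w.v)) w.j
    have h3 := D_near 𝔊 V x
    have h4 := D_tri 𝔊 V x (tr x.v) (tr (n • one3 + w.v) * rot w.j)
    have h5 := D_tri 𝔊 V (tr x.v) (tr (n • one3 + w.v)) (tr (n • one3 + w.v) * rot w.j)
    rw [D_comm 𝔊 V x (tr x.v)] at h4
    linarith
  · unfold Unb at hV
    push Not at hV
    obtain ⟨R, hR⟩ := hV
    exact ⟨R, (D_nn 𝔊 V 1 1).trans (hR 1 1), fun x w => ⟨0, hR _ _⟩⟩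

/-- uniformly over all domains -/
theorem dense_all : ∃ κ : ℝ, ∀ (U : 𝔊.H.Dom) (x : Gr), ∃ n : ℤ, D 𝔊 U x (z ^ n) ≤ κ := by
  classical
  obtain ⟨F, hF⟩ := 𝔊.cofinite
  choose κ hκ0 hκ using dense_dom 𝔊
  refine ⟨(∑ V ∈ F, κ V) + 4 * 𝔊.K, fun U x => ?_⟩
  obtain ⟨g, V, hV, rfl⟩ := hF U
  obtain ⟨n, hn⟩ := hκ V (g⁻¹ * x) g⁻¹
  refine ⟨n, ?_⟩
  have h1 := D_act_le 𝔊 g V (g⁻¹ * x) (z ^ n * g⁻¹)
  rw [mul_inv_cancel_left, z_comm, mul_inv_cancel_left] at h1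
  rw [z_comm] at hn
  have h2 : κ V ≤ ∑ V ∈ F, κ V := Finset.single_le_sum (f := κ) (fun i _ => hκ0 i) hV
  linarith

/-- the diagonal is not hierarchically quasiconvex -/
theorem not_HQC (hS : Subgroup.closure (S : Set Gr) = ⊤) :
    ¬ HQC 𝔊 (Subgroup.zpowers z : Set Gr) := by
  rintro ⟨-, h⟩
  obtain ⟨κ, hκ⟩ := dense_all 𝔊
  obtain ⟨r, hr⟩ := h κ
  have h1 : ∀ x : Gr, ∃ y ∈ (Subgroup.zpowers z : Set Gr), wd S x y ≤ r := by
    intro x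
    refine hr x fun U => ?_
    obtain ⟨n, hn⟩ := hκ U x
    refine (sd_le_of (cc_mem 𝔊 U x) (b := cc 𝔊 U (z ^ n)) ?_).trans hn
    exact ⟨z ^ n, ⟨n, rfl⟩, cc_mem 𝔊 U _⟩
  obtain ⟨C, hC, hn⟩ := nrm_le S hS
  obtain ⟨m, hm⟩ := exists_nat_gt (C * r)
  obtain ⟨y, ⟨n, rfl⟩, hy⟩ := h1 (tr (fun i => if i = 0 then (m : ℤ) else 0))
  have h2 := hn ((tr (fun i => if i = 0 then (m : ℤ) else 0))⁻¹ * z ^ n)
  have h3 : (m : ℤ) ≤ nrm ((tr (fun i => if i = 0 then (m : ℤ) else 0))⁻¹ * z ^ n) := by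
    rw [nrm_inv_mul, z_zpow]
    have e : (Finset.univ : Finset (ZMod 3)) = {0, 1, 2} := by decide
    rw [e, Finset.sum_insert (by decide), Finset.sum_insert (by decide), Finset.sum_singleton]
    have e0 : (tr (n • one3)).v 0 = n := by simp [tr, one3]
    have e1 : (tr (n • one3)).v 1 = n := by simp [tr, one3]
    have e2 : (tr (n • one3)).v 2 = n := by simp [tr, one3]
    rw [e0, e1, e2]
    have f0 : (tr (fun i => if i = 0 then (m : ℤ) else 0)).v 0 = m := by simp [tr]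
    have f1 : (tr (fun i => if i = 0 then (m : ℤ) else 0)).v 1 = 0 := by
      show (if (1 : ZMod 3) = 0 then (m : ℤ) else 0) = 0
      rw [if_neg (by decide)]
    rw [f0, f1]
    have h4 : (0 : ℤ) ≤ |n - (tr (fun i => if i = 0 then (m : ℤ) else 0)).v 2| := abs_nonneg _
    rw [sub_zero]
    have h5 := neg_abs_le (n - (m : ℤ))
    have h6 := le_abs_self n
    linarith
  have h4 : ((m : ℤ) : ℝ) ≤ nrm ((tr (fun i => if i = 0 then (m : ℤ) else 0))⁻¹ * z ^ n) := by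
    exact_mod_cast h3
  have h5 : C * wd S (tr (fun i => if i = 0 then (m : ℤ) else 0)) (z ^ n) ≤ C * r :=
    mul_le_mul_of_nonneg_left hy hC
  unfold wd at h5
  push_cast at h4
  linarith

end

end Pool.Agent.W389.CT
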