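import Pool.Agent.W389.CT.Gr
import Pool.Agent.W389.CT.HGeo

set_option autoImplicit false

/-! The standard hierarchically hyperbolic structure of `ℤ wr ℤ/3`. -/

namespace Pool.Agent.W389.CT

open Pool.Agent.Helper548.HB Gr

/-- the unit vectors -/
def ee (i : ZMod 3) : E3 := fun k => if k = i then 1 else 0

open Classical in
/-- generators -/
noncomputable def gens : Finset Gr := {z, tr (ee 0), tr (ee 1), tr (ee 2), rot 1}

theorem z_mem : z ∈ gens := by simp [gens]
theorem e_mem (i : ZMod 3) : tr (ee i) ∈ gens := by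
  fin_cases i
  · show tr (ee 0) ∈ gens
    simp [gens]
  · show tr (ee 1) ∈ gens
    simp [gens]
  · show tr (ee 2) ∈ gens
    simp [gens]
theorem r_mem : rot 1 ∈ gens := by simp [gens]

theorem eq_sum (u : E3) : u = u 0 • ee 0 + u 1 • ee 1 + u 2 • ee 2 := by
  funext i
  show u i = u 0 * (if i = 0 then 1 else 0) + u 1 * (if i = 1 then 1 else 0) +
    u 2 * (if i = 2 then 1 else 0)
  fin_cases i
  · show u 0 = u 0 * (if (0 : ZMod 3) = 0 then 1 else 0) + u 1 * (if (0 : ZMod 3) = 1 then 1 else 0)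
      + u 2 * (if (0 : ZMod 3) = 2 then 1 else 0)
    rw [if_pos (by decide), if_neg (by decide), if_neg (by decide)]; ring
  · show u 1 = u 0 * (if (1 : ZMod 3) = 0 then 1 else 0) + u 1 * (if (1 : ZMod 3) = 1 then 1 else 0)
      + u 2 * (if (1 : ZMod 3) = 2 then 1 else 0)
    rw [if_neg (by decide), if_pos (by decide), if_neg (by decide)]; ring
  · show u 2 = u 0 * (if (2 : ZMod 3) = 0 then 1 else 0) + u 1 * (if (2 : ZMod 3) = 1 then 1 else 0)
      + u 2 * (if (2 : ZMod 3) = 2 then 1 else 0)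
    rw [if_neg (by decide), if_neg (by decide), if_pos (by decide)]; ring

theorem rot_eq_pow (k : ZMod 3) : rot k = rot 1 ^ k.val := by
  fin_cases k
  · show rot 0 = rot 1 ^ 0
    rw [pow_zero, rot_zero]
  · show rot 1 = rot 1 ^ 1
    rw [pow_one]
  · show rot 2 = rot 1 ^ 2
    rw [pow_two, ← rot_add]; rfl

theorem gens_top : Subgroup.closure (gens : Set Gr) = ⊤ := by
  rw [eq_top_iff]
  intro g _
  rw [eq_tr_rot g, eq_sum g.v, tr_add, tr_add, tr_zsmul, tr_zsmul, tr_zsmul, rot_eq_pow]
  have h1 : ∀ i, tr (ee i) ∈ Subgroup.closure (gens : Set Gr) := fun i =>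
    Subgroup.subset_closure (e_mem i)
  have h2 : rot 1 ∈ Subgroup.closure (gens : Set Gr) := Subgroup.subset_closure r_mem
  exact mul_mem (mul_mem (mul_mem (zpow_mem (h1 0) _) (zpow_mem (h1 1) _)) (zpow_mem (h1 2) _))
    (pow_mem h2 _)

theorem wlen_gen {G : Type} [Group G] {S : Finset G} {s : G} (hs : s ∈ S) : wlen S s ≤ 1 := by
  have := wl_le S [s] (by intro x hx; rw [List.mem_singleton] at hx; exact Or.inl (hx ▸ hs))
  simpa using this

theorem wlen_pow_le {G : Type} [Group G] {S : Finset G} (hS : Subgroup.closure (S : Set G) = ⊤)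
    {s : G} (hs : s ∈ S) (n : ℕ) : wlen S (s ^ n) ≤ n := by
  induction n with
  | zero => rw [pow_zero, wl_one]
  | succ k ih =>
    rw [pow_succ]
    exact (wl_mul S hS _ _).trans (add_le_add ih (wlen_gen hs))

theorem wlen_zpow_le {G : Type} [Group G] {S : Finset G} (hS : Subgroup.closure (S : Set G) = ⊤)
    {s : G} (hs : s ∈ S) (n : ℤ) : (wlen S (s ^ n) : ℤ) ≤ |n| := by
  obtain ⟨m, rfl | rfl⟩ := n.eq_nat_or_neg
  · rw [zpow_natCast, abs_of_nonneg (Int.natCast_nonneg m)]
    exact_mod_cast wlen_pow_le hS hs m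
  · rw [zpow_neg, zpow_natCast, (wlen_basic S hS).2.1, abs_neg, abs_of_nonneg (Int.natCast_nonneg m)]
    exact_mod_cast wlen_pow_le hS hs m

theorem wlen_le_nrm (g : Gr) : (wlen gens g : ℤ) ≤ nrm g + 2 := by
  conv_lhs => rw [eq_tr_rot g, eq_sum g.v, tr_add, tr_add, tr_zsmul, tr_zsmul, tr_zsmul, rot_eq_pow]
  have h1 := (wlen_basic gens gens_top).1
    (tr (ee 0) ^ g.v 0 * tr (ee 1) ^ g.v 1 * tr (ee 2) ^ g.v 2) (rot 1 ^ g.j.val)
  have h2 := (wlen_basic gens gens_top).1 (tr (ee 0) ^ g.v 0 * tr (ee 1) ^ g.v 1)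
    (tr (ee 2) ^ g.v 2)
  have h3 := (wlen_basic gens gens_top).1 (tr (ee 0) ^ g.v 0) (tr (ee 1) ^ g.v 1)
  have h4 := wlen_zpow_le gens_top (e_mem 0) (g.v 0)
  have h5 := wlen_zpow_le gens_top (e_mem 1) (g.v 1)
  have h6 := wlen_zpow_le gens_top (e_mem 2) (g.v 2)
  have h7 := wlen_pow_le gens_top r_mem g.j.val
  have h8 : g.j.val ≤ 2 := by
    have := ZMod.val_lt g.j
    omega
  unfold nrm
  push_cast [← Nat.cast_le (α := ℤ)] at h1 h2 h3 h7 h8
  linarith

/-- domains: nonempty sets of coordinates -/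
abbrev Dm : Type := {s : Finset (ZMod 3) // s.Nonempty}

/-- the space of a domain: a line for one coordinate, a point otherwise -/
abbrev CC (U : Dm) : Type := {r : ℝ // U.1.card = 1 ∨ r = 0}

/-- coordinate -/
def co (U : Dm) (x : Gr) : ℝ := if U.1.card = 1 then ((∑ i ∈ U.1, x.v i : ℤ) : ℝ) else 0

theorem co_or (U : Dm) (x : Gr) : U.1.card = 1 ∨ co U x = 0 := by
  unfold co
  split_ifs with h
  · exact Or.inl h
  · exact Or.inr rfl

/-- the point of the coordinate -/
def cpt (U : Dm) (x : Gr) : CC U := ⟨co U x, co_or U x⟩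

/-- the hierarchy -/
abbrev hr : Hier Gr where
  Dom := Dm
  C := CC
  met := fun _ => inferInstance
  nest := fun U V => U.1 ⊆ V.1
  orth := fun U V => Disjoint U.1 V.1
  π := fun U x => {cpt U x}
  ρ := fun _ W => {p : CC W | p.1 = 0}
  ρd := fun _ _ _ => Set.univ

/-- action on the domains -/
def actD (g : Gr) (U : Dm) : Dm :=
  ⟨U.1.map (Equiv.addRight g.j).toEmbedding, by
    obtain ⟨i, hi⟩ := U.2
    exact ⟨i + g.j, Finset.mem_map.2 ⟨i, hi, rfl⟩⟩⟩

theorem actD_card (g : Gr) (U : Dm) : (actD g U).1.card = U.1.card := Finset.card_map _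

theorem actD_sum (g : Gr) (U : Dm) (f : ZMod 3 → ℤ) :
    ∑ k ∈ (actD g U).1, f k = ∑ i ∈ U.1, f (i + g.j) := Finset.sum_map _ _ _

theorem actD_one (U : Dm) : actD 1 U = U := by
  apply Subtype.ext
  ext i
  simp only [actD, Finset.mem_map, Equiv.coe_toEmbedding, Equiv.coe_addRight, one_j, add_zero,
    exists_eq_right]

theorem actD_mul (g h : Gr) (U : Dm) : actD (g * h) U = actD g (actD h U) := by
  apply Subtype.ext
  ext i
  simp only [actD, Finset.mem_map, Equiv.coe_toEmbedding, Equiv.coe_addRight, mul_j]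
  constructor
  · rintro ⟨k, hk, rfl⟩
    exact ⟨k + h.j, ⟨k, hk, rfl⟩, by ring⟩
  · rintro ⟨_, ⟨k, hk, rfl⟩, rfl⟩
    exact ⟨k, hk, by ring⟩

/-- the isometries -/
def isoD (g : Gr) (U : Dm) (p : CC U) : CC (actD g U) :=
  ⟨if (actD g U).1.card = 1 then p.1 + ((∑ k ∈ (actD g U).1, g.v k : ℤ) : ℝ) else 0, by
    split_ifs with h
    · exact Or.inl h
    · exact Or.inr rfl⟩

theorem isoD_val (g : Gr) (U : Dm) (p : CC U) (h : U.1.card = 1) :
    (isoD g U p).1 = p.1 + ((∑ i ∈ U.1, g.v (i + g.j) : ℤ) : ℝ) := by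
  show (if (actD g U).1.card = 1 then p.1 + ((∑ k ∈ (actD g U).1, g.v k : ℤ) : ℝ) else 0) = _
  rw [if_pos (by rw [actD_card]; exact h), actD_sum]

theorem val_zero {U : Dm} (p : CC U) (h : U.1.card ≠ 1) : p.1 = 0 := p.2.resolve_left h

theorem CC_sub {U : Dm} (h : U.1.card ≠ 1) (p q : CC U) : p = q :=
  Subtype.ext ((val_zero p h).trans (val_zero q h).symm)

theorem CC_heq {U V : Dm} (h : U = V) (p : CC U) (q : CC V) (hpq : p.1 = q.1) : HEq p q := by
  subst h
  exact heq_of_eq (Subtype.ext hpq)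

theorem dist_CC {U : Dm} (p q : CC U) : dist p q = |p.1 - q.1| := rfl

theorem sd_zero {U : Dm} (h : U.1.card ≠ 1) (A B : Set (CC U)) : sd A B ≤ 0 := by
  by_cases hne : {r | ∃ a ∈ A, ∃ b ∈ B, r = dist a b}.Nonempty
  · obtain ⟨r, a, ha, b, hb, rfl⟩ := hne
    refine (sd_le_of ha hb).trans ?_
    rw [CC_sub h a b, dist_self]
  · unfold sd
    rw [Set.not_nonempty_iff_eq_empty.1 hne, Real.sInf_empty]

/-- a proper superset or a transverse set has at least two elements -/
theorem card_of_nt {V W : Dm} (h : hr.pnest V W ∨ hr.trans V W) : W.1.card ≠ 1 := by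
  intro h1
  obtain ⟨i, hi⟩ := Finset.card_eq_one.1 h1
  rcases h with ⟨h2, h3⟩ | ⟨h2, h3, h4⟩
  · have h2' : V.1 ⊆ W.1 := h2
    rw [hi] at h2'
    rcases Finset.subset_singleton_iff.1 h2' with h5 | h5
    · exact V.2.ne_empty h5
    · exact h3 (Subtype.ext (h5.trans hi.symm))
  · have h2' : ¬ Disjoint V.1 W.1 := h2
    rw [hi, Finset.disjoint_singleton_right, not_not] at h2'
    apply h4
    show W.1 ⊆ V.1
    rw [hi, Finset.singleton_subset_iff]
    exact h2'

theorem co_lip (U : Dm) (x y : Gr) : |co U x - co U y| ≤ (nrm (x⁻¹ * y) : ℝ) := by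
  unfold co
  split_ifs with h
  · obtain ⟨i, hi⟩ := Finset.card_eq_one.1 h
    rw [hi, Finset.sum_singleton, Finset.sum_singleton, nrm_inv_mul]
    have h1 : |y.v i - x.v i| ≤ ∑ i, |y.v i - x.v i| :=
      Finset.single_le_sum (f := fun i => |y.v i - x.v i|) (fun i _ => abs_nonneg _)
        (Finset.mem_univ i)
    rw [abs_sub_comm]
    exact_mod_cast h1
  · rw [sub_zero, abs_zero]
    exact_mod_cast nrm_nonneg _

theorem dom_eq (U : Dm) (x y : Gr) : hr.dom U x y = |co U x - co U y| := by
  show sd ({cpt U x} : Set (CC U)) {cpt U y} = _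
  unfold sd
  have : {r | ∃ a ∈ ({cpt U x} : Set (CC U)), ∃ b ∈ ({cpt U y} : Set (CC U)), r = dist a b} =
      {|co U x - co U y|} := by
    ext r
    constructor
    · rintro ⟨a, ha, b, hb, rfl⟩
      rw [Set.mem_singleton_iff] at ha hb
      rw [ha, hb]
      rfl
    · intro h
      exact ⟨_, rfl, _, rfl, h⟩
  rw [this, csInf_singleton]

theorem four_real (o x y z : ℝ) :
    min ((|x - o| + |z - o| - |x - z|) / 2) ((|z - o| + |y - o| - |z - y|) / 2) ≤
      (|x - o| + |y - o| - |x - y|) / 2 := by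
  rcases le_total x o with h1 | h1 <;> rcases le_total z o with h2 | h2 <;>
    rcases le_total y o with h3 | h3 <;> rcases le_total x z with h4 | h4 <;>
    rcases le_total z y with h5 | h5 <;> rcases le_total x y with h6 | h6 <;>
    simp only [abs_of_nonneg, abs_of_nonpos, sub_nonneg, sub_nonpos, h1, h2, h3, h4, h5, h6] <;>
    first
    | (apply min_le_of_left_le; linarith)
    | (apply min_le_of_right_le; linarith)

theorem sing (U : Dm) (h : U.1.card = 1) : ∃ i, U = ⟨{i}, Finset.singleton_nonempty i⟩ := by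
  obtain ⟨i, hi⟩ := Finset.card_eq_one.1 h
  exact ⟨i, Subtype.ext hi⟩

theorem ax_hr : ∃ K : ℝ, HHSAx (wd gens) hr K := by
  obtain ⟨C, hC0, hC⟩ := nrm_le gens gens_top
  refine ⟨C + 100, ?_⟩
  have hcard : ∀ F : Finset Dm, F.card ≤ 8 := by
    intro F
    refine (Finset.card_le_univ F).trans ?_
    refine (Fintype.card_subtype_le _).trans ?_
    rw [Fintype.card_finset, ZMod.card]
    norm_num
  have hwd : ∀ x y : Gr, 0 ≤ wd gens x y := fun x y => Nat.cast_nonneg _
  refine
    { one_le := by linarith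
      geod := ?_
      hyp := ?_
      π_ne := fun U x => Set.singleton_nonempty _
      π_diam := ?_
      π_lip := ?_
      π_qc := ?_
      nest_refl := fun U => Finset.Subset.refl _
      nest_antisymm := fun U V h h' => Subtype.ext (Finset.Subset.antisymm h h')
      nest_trans := fun U V W h h' => Finset.Subset.trans h h'
      nest_max := ⟨⟨Finset.univ, Finset.univ_nonempty⟩, fun U => Finset.subset_univ _⟩
      ρ_ne := fun V W _ => ⟨⟨0, Or.inr rfl⟩, rfl⟩
      ρ_diam := ?_
      ρd_ne := fun V W _ _ => ⟨⟨0, Or.inr rfl⟩, trivial⟩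
      orth_symm := fun U V h => Disjoint.symm h
      orth_irrefl := ?_
      orth_nest := fun V W U h h' => Finset.disjoint_of_subset_left h h'
      container := ?_
      orth_not_nest := ?_
      cons_trans := ?_
      cons_nest := ?_
      cons_ρ := ?_
      complexity := ⟨8, fun s _ => hcard s⟩
      large_links := ?_
      bgi := ?_
      realization := ?_
      uniqueness := ?_ }
  · -- geodesic
    intro U x y
    by_cases h : U.1.card = 1
    · rcases le_total x.1 y.1 with hxy | hxy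
      · have hd : dist x y = y.1 - x.1 := by
          rw [dist_CC, abs_of_nonpos (by linarith)]; ring
        refine ⟨fun t => ⟨x.1 + t, Or.inl h⟩, Subtype.ext (by simp), Subtype.ext ?_, ?_⟩
        · show x.1 + dist x y = y.1
          rw [hd]; ring
        · intro s _ t _
          rw [dist_CC]
          congr 1
          ring
      · have hd : dist x y = x.1 - y.1 := by
          rw [dist_CC, abs_of_nonneg (by linarith)]
        refine ⟨fun t => ⟨x.1 - t, Or.inl h⟩, Subtype.ext (by simp), Subtype.ext ?_, ?_⟩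
        · show x.1 - dist x y = y.1
          rw [hd]; ring
        · intro s _ t _
          rw [dist_CC, abs_sub_comm s t]
          congr 1
          ring
    · have hxy : x = y := CC_sub h x y
      subst hxy
      refine ⟨fun _ => x, rfl, rfl, ?_⟩
      intro s hs t ht
      rw [dist_self] at hs ht ⊢
      have h1 : s = 0 := le_antisymm hs.2 hs.1
      have h2 : t = 0 := le_antisymm ht.2 ht.1
      rw [h1, h2]; simp
  · -- hyperbolic
    intro U o x y z
    have h := four_real o.1 x.1 y.1 z.1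
    show min ((dist x o + dist z o - dist x z) / 2) ((dist z o + dist y o - dist z y) / 2) -
      (C + 100) ≤ (dist x o + dist y o - dist x y) / 2
    simp only [dist_CC]
    linarith
  · intro U x a ha b hb
    have ha' : a = cpt U x := ha
    have hb' : b = cpt U x := hb
    rw [ha', hb', dist_self]
    linarith
  · intro U x y p hp q hq
    have hp' : p = cpt U x := hp
    have hq' : q = cpt U y := hq
    rw [hp', hq', dist_CC]
    have h1 := co_lip U x y
    have h2 := hC (x⁻¹ * y)
    have h3 := hwd x y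
    show |co U x - co U y| ≤ _
    have h4 : C * (wlen gens (x⁻¹ * y) : ℝ) = C * wd gens x y := rfl
    have h5 : (C + 100) * wd gens x y + (C + 100) = C * wd gens x y + (100 * wd gens x y + C + 100) := by
      ring
    rw [h5]
    linarith
  · -- quasiconvex image
    intro U γ l hγ h0 hl t ht
    by_cases h : U.1.card = 1
    · obtain ⟨i, rfl⟩ := sing U h
      refine ⟨cpt _ (tr (⌊(γ t).1⌋ • ee i)), ⟨_, trivial, rfl⟩, ?_⟩
      rw [dist_CC]
      have h1 : co ⟨{i}, Finset.singleton_nonempty i⟩ (tr (⌊(γ t).1⌋ • ee i)) = ⌊(γ t).1⌋ := by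
        unfold co
        rw [if_pos h, Finset.sum_singleton]
        simp [tr, ee]
      have h2 : (cpt ⟨{i}, Finset.singleton_nonempty i⟩ (tr (⌊(γ t).1⌋ • ee i))).1 =
          co ⟨{i}, Finset.singleton_nonempty i⟩ (tr (⌊(γ t).1⌋ • ee i)) := rfl
      rw [h2, h1, abs_of_nonneg (by linarith [Int.floor_le (γ t).1])]
      linarith [Int.lt_floor_add_one (γ t).1]
    · refine ⟨cpt _ 1, ⟨_, trivial, rfl⟩, ?_⟩
      rw [CC_sub h (γ t) (cpt U 1), dist_self]
      linarith
  · intro V W h a ha b hb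
    rw [CC_sub (card_of_nt h) a b, dist_self]
    linarith
  · intro U h
    have h' : Disjoint U.1 U.1 := h
    rw [disjoint_self] at h'
    exact U.2.ne_empty h'
  · rintro T U hUT ⟨V, hVT, hVU⟩
    have hUT' : U.1 ⊆ T.1 := hUT
    have hVT' : V.1 ⊆ T.1 := hVT
    have hVU' : Disjoint V.1 U.1 := hVU
    obtain ⟨i, hi⟩ := V.2
    refine ⟨⟨T.1 \ U.1, ⟨i, Finset.mem_sdiff.2 ⟨hVT' hi, Finset.disjoint_left.1 hVU' hi⟩⟩⟩,
      ⟨Finset.sdiff_subset, ?_⟩, ?_⟩
    · intro heq
      have heq' : T.1 \ U.1 = T.1 := congrArg Subtype.val heq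
      obtain ⟨k, hk⟩ := U.2
      have : k ∈ T.1 \ U.1 := by rw [heq']; exact hUT' hk
      exact (Finset.mem_sdiff.1 this).2 hk
    · intro W hWT hWU
      have hWT' : W.1 ⊆ T.1 := hWT
      have hWU' : Disjoint W.1 U.1 := hWU
      show W.1 ⊆ T.1 \ U.1
      exact Finset.subset_sdiff.2 ⟨hWT', hWU'⟩
  · intro V W h
    have h' : Disjoint V.1 W.1 := h
    constructor
    · intro hn
      have hn' : V.1 ⊆ W.1 := hn
      obtain ⟨i, hi⟩ := V.2
      exact Finset.disjoint_left.1 h' hi (hn' hi)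
    · intro hn
      have hn' : W.1 ⊆ V.1 := hn
      obtain ⟨i, hi⟩ := W.2
      exact Finset.disjoint_left.1 h' (hn' hi) hi
  · intro V W h x
    exact Or.inl ((sd_zero (card_of_nt (Or.inr h)) _ _).trans (by linarith))
  · intro V W h x
    exact Or.inl ((sd_zero (card_of_nt (Or.inl h)) _ _).trans (by linarith))
  · intro U V W _ h
    refine (sd_zero (card_of_nt (V := V) (W := W) ?_) _ _).trans (by linarith)
    rcases h with h | h
    · exact Or.inl h
    · exact Or.inr h.1
  · -- large links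
    intro W x x'
    classical
    have hd : 0 ≤ hr.dom W x x' := sd_nonneg' _ _
    refine ⟨Finset.univ.filter fun T : Dm => hr.pnest T W, ?_, ?_, ?_⟩
    · have h1 := hcard (Finset.univ.filter fun T : Dm => hr.pnest T W)
      have h2 : ((Finset.univ.filter fun T : Dm => hr.pnest T W).card : ℝ) ≤ 8 := by
        exact_mod_cast h1
      have h3 : 0 ≤ (C + 100) * hr.dom W x x' := mul_nonneg (by linarith) hd
      linarith
    · intro T hT
      have hT' := (Finset.mem_filter.1 hT).2
      refine ⟨hT', (sd_zero (card_of_nt (Or.inl hT')) _ _).trans ?_⟩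
      have h3 : 0 ≤ (C + 100) * hr.dom W x x' := mul_nonneg (by linarith) hd
      linarith
    · intro U hU
      exact Or.inl ⟨U, Finset.mem_filter.2 ⟨Finset.mem_univ _, hU⟩, Finset.Subset.refl _⟩
  · -- bounded geodesic image
    intro V W h γ l hγ
    refine Or.inr ⟨0, ⟨le_rfl, hγ.1⟩, ⟨0, Or.inr rfl⟩, rfl, ?_⟩
    rw [CC_sub (card_of_nt (Or.inl h)) (γ 0) ⟨0, Or.inr rfl⟩, dist_self]
    linarith
  · -- partial realization
    intro F _ p _
    refine ⟨tr (fun i => ⌊(p ⟨{i}, Finset.singleton_nonempty i⟩).1⌋), fun U _ => ⟨?_, fun W hW =>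
      (sd_zero (card_of_nt hW) _ _).trans (by linarith)⟩⟩
    by_cases h : U.1.card = 1
    · obtain ⟨i, rfl⟩ := sing U h
      refine (sd_le_of (Set.mem_singleton _) (Set.mem_singleton _)).trans ?_
      rw [dist_CC]
      have h1 : co ⟨{i}, Finset.singleton_nonempty i⟩
          (tr (fun i => ⌊(p ⟨{i}, Finset.singleton_nonempty i⟩).1⌋)) =
          ⌊(p ⟨{i}, Finset.singleton_nonempty i⟩).1⌋ := by
        unfold co
        rw [if_pos h, Finset.sum_singleton]
        rfl
      have h2 : (cpt ⟨{i}, Finset.singleton_nonempty i⟩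
          (tr (fun i => ⌊(p ⟨{i}, Finset.singleton_nonempty i⟩).1⌋))).1 =
          co ⟨{i}, Finset.singleton_nonempty i⟩
          (tr (fun i => ⌊(p ⟨{i}, Finset.singleton_nonempty i⟩).1⌋)) := rfl
      rw [h2, h1, abs_of_nonpos (by linarith [Int.floor_le (p ⟨{i}, Finset.singleton_nonempty i⟩).1])]
      linarith [Int.lt_floor_add_one (p ⟨{i}, Finset.singleton_nonempty i⟩).1]
    · exact (sd_zero h _ _).trans (by linarith)
  · -- uniqueness
    intro κ
    refine ⟨3 * κ + 3, fun x y hxy => ?_⟩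
    by_contra hcon
    push Not at hcon
    have h1 : ∀ i : ZMod 3, |((y.v i - x.v i : ℤ) : ℝ)| < κ := by
      intro i
      have h2 := hcon ⟨{i}, Finset.singleton_nonempty i⟩
      rw [dom_eq] at h2
      unfold co at h2
      rw [if_pos (by simp), if_pos (by simp), Finset.sum_singleton, Finset.sum_singleton,
        abs_sub_comm] at h2
      push_cast
      exact h2
    have h2 := wlen_le_nrm (x⁻¹ * y)
    have e : (Finset.univ : Finset (ZMod 3)) = {0, 1, 2} := by decide
    rw [nrm_inv_mul, e, Finset.sum_insert (by decide), Finset.sum_insert (by decide),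
      Finset.sum_singleton] at h2
    have h3 : (wlen gens (x⁻¹ * y) : ℝ) ≤ |((y.v 0 - x.v 0 : ℤ) : ℝ)| +
        (|((y.v 1 - x.v 1 : ℤ) : ℝ)| + |((y.v 2 - x.v 2 : ℤ) : ℝ)|) + 2 := by
      exact_mod_cast h2
    have h4 : 3 * κ + 3 ≤ (wlen gens (x⁻¹ * y) : ℝ) := hxy
    linarith [h1 0, h1 1, h1 2]

/-- the constant -/
noncomputable def KK : ℝ := ax_hr.choose

theorem ax_KK : HHSAx (wd gens) hr KK := ax_hr.choose_spec

/-- The hierarchically hyperbolic group structure. -/
noncomputable def str : HHGs Gr gens where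
  H := hr
  K := KK
  ax := ax_KK
  act := actD
  act_one := actD_one
  act_mul := actD_mul
  cofinite := ⟨Finset.univ, fun U => ⟨1, U, Finset.mem_univ _, actD_one U⟩⟩
  act_nest := fun _ _ _ => Finset.map_subset_map
  act_orth := fun _ _ _ => Finset.disjoint_map _
  iso := isoD
  iso_isom := by
    intro g U p q
    rw [dist_CC, dist_CC]
    by_cases h : U.1.card = 1
    · rw [isoD_val _ _ _ h, isoD_val _ _ _ h]
      congr 1
      ring
    · rw [CC_sub h p q]
      simp
  iso_surj := by
    intro g U q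
    by_cases h : U.1.card = 1
    · refine ⟨⟨q.1 - ((∑ i ∈ U.1, g.v (i + g.j) : ℤ) : ℝ), Or.inl h⟩, Subtype.ext ?_⟩
      rw [isoD_val _ _ _ h]
      ring
    · refine ⟨⟨0, Or.inr rfl⟩, CC_sub ?_ _ _⟩
      show (actD g U).1.card ≠ 1
      rw [actD_card]
      exact h
  iso_one := by
    intro U p
    refine CC_heq (actD_one U) _ _ ?_
    by_cases h : U.1.card = 1
    · rw [isoD_val _ _ _ h]
      simp [one_v]
    · rw [val_zero p h]
      exact val_zero _ (by rw [actD_card]; exact h)
  iso_mul := by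
    intro g h U p
    refine CC_heq (actD_mul g h U) _ _ ?_
    by_cases hU : U.1.card = 1
    · have hU' : (actD h U).1.card = 1 := by rw [actD_card]; exact hU
      rw [isoD_val _ _ _ hU]
      rw [isoD_val g (actD h U) _ hU', isoD_val _ _ _ hU, actD_sum, add_assoc, ← Int.cast_add,
        ← Finset.sum_add_distrib]
      congr 2
      refine Finset.sum_congr rfl fun i _ => ?_
      rw [mul_v, mul_j]
      have e1 : i + (g.j + h.j) - g.j = i + h.j := by ring
      have e2 : i + h.j + g.j = i + (g.j + h.j) := by ring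
      rw [e1, e2, add_comm]
    · rw [val_zero _ (by rw [actD_card]; exact hU)]
      exact (val_zero _ (by rw [actD_card, actD_card]; exact hU)).symm
  iso_π := by
    intro g U x p hp
    have hp' : p = cpt U x := hp
    refine ⟨cpt (actD g U) (g * x), rfl, ?_⟩
    have : isoD g U p = cpt (actD g U) (g * x) := by
      apply Subtype.ext
      by_cases h : U.1.card = 1
      · rw [isoD_val _ _ _ h, hp']
        show co U x + _ = co (actD g U) (g * x)
        unfold co
        rw [if_pos h, if_pos (by rw [actD_card]; exact h), actD_sum, ← Int.cast_add,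
          ← Finset.sum_add_distrib]
        congr 1
        refine Finset.sum_congr rfl fun i _ => ?_
        rw [mul_v, add_sub_cancel_right, add_comm]
      · rw [val_zero _ (by rw [actD_card]; exact h), val_zero _ (by rw [actD_card]; exact h)]
    rw [this, dist_self]
    linarith [ax_KK.one_le]
  iso_ρ := by
    intro g U V h p hp
    have hV : V.1.card ≠ 1 := card_of_nt h
    refine ⟨⟨0, Or.inr rfl⟩, rfl, ?_⟩
    rw [CC_sub (U := actD g V) (by rw [actD_card]; exact hV) (isoD g V p) ⟨0, Or.inr rfl⟩,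
      dist_self]
    linarith [ax_KK.one_le]
  iso_ρd := by
    intro g W V p h a ha
    refine ⟨isoD g V a, trivial, ?_⟩
    rw [dist_self]
    linarith [ax_KK.one_le]

end Pool.Agent.W389.CT
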